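import Mathlib

/-!
# Reed-Muller type families and their independence
-/

namespace Pool.Agent.H589R2

/-- The `k`-th coordinate of a point of the cube (`false` if there is none). -/
def co (n k : ℕ) (x : Fin n → Bool) : Bool := if h : k < n then x ⟨k, h⟩ else false

/-- Boolean polynomials of degree at most `d` over `GF(2)` in the first `k` coordinates. -/
def RM (n : ℕ) : ℕ → ℕ → Set ((Fin n → Bool) → Bool)
  | 0, _ => {f | ∃ c : Bool, f = fun _ => c}
  | _ + 1, 0 => {f | ∃ c : Bool, f = fun _ => c}
  | k + 1, d + 1 => {f | ∃ P ∈ RM n k (d + 1), ∃ Q ∈ RM n k d,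
      f = fun x => xor (P x) (co n k x && Q x)}

theorem RM_const (n : ℕ) : ∀ (k d : ℕ) (c : Bool), (fun _ => c) ∈ RM n k d := by
  intro k
  induction k with
  | zero => intro d c; exact ⟨c, rfl⟩
  | succ k ih =>
    intro d c
    cases d with
    | zero => exact ⟨c, rfl⟩
    | succ d =>
      refine ⟨_, ih (d + 1) c, _, ih d false, ?_⟩
      funext x
      simp

theorem RM_mono (n : ℕ) : ∀ (k d : ℕ), RM n k d ⊆ RM n k (d + 1) := by
  intro k
  induction k with
  | zero => intro d f hf; exact hf
  | succ k ih =>
    intro d f hf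
    cases d with
    | zero =>
      obtain ⟨c, rfl⟩ := hf
      exact RM_const n _ _ c
    | succ d =>
      obtain ⟨P, hP, Q, hQ, rfl⟩ := hf
      exact ⟨P, ih _ hP, Q, ih _ hQ, rfl⟩

theorem RM_xor (n : ℕ) : ∀ (k d : ℕ) (f g : (Fin n → Bool) → Bool), f ∈ RM n k d →
    g ∈ RM n k d → (fun x => xor (f x) (g x)) ∈ RM n k d := by
  intro k
  induction k with
  | zero =>
    rintro d f g ⟨c, rfl⟩ ⟨c', rfl⟩
    exact ⟨xor c c', rfl⟩
  | succ k ih =>
    intro d f g hf hg
    cases d with
    | zero =>
      obtain ⟨c, rfl⟩ := hf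
      obtain ⟨c', rfl⟩ := hg
      exact ⟨xor c c', rfl⟩
    | succ d =>
      obtain ⟨P, hP, Q, hQ, rfl⟩ := hf
      obtain ⟨P', hP', Q', hQ', rfl⟩ := hg
      refine ⟨_, ih _ P P' hP hP', _, ih _ Q Q' hQ hQ', ?_⟩
      funext x
      show xor (xor (P x) (co n k x && Q x)) (xor (P' x) (co n k x && Q' x)) =
        xor (xor (P x) (P' x)) (co n k x && xor (Q x) (Q' x))
      generalize co n k x = a
      generalize P x = b
      generalize P' x = c
      generalize Q x = e
      generalize Q' x = f
      revert a b c e f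
      decide

theorem RM_interp (n : ℕ) : ∀ (k d : ℕ) (A : Finset (Fin n → Bool)),
    (∀ x ∈ A, ∀ y ∈ A, (∀ j < k, co n j x = co n j y) → x = y) → A.card ≤ 2 ^ d →
    ∀ τ : (Fin n → Bool) → Bool, ∃ f ∈ RM n k d, ∀ x ∈ A, f x = τ x := by
  intro k
  induction k with
  | zero =>
    intro d A hA _ τ
    by_cases hne : A.Nonempty
    · obtain ⟨a, ha⟩ := hne
      refine ⟨fun _ => τ a, ⟨_, rfl⟩, ?_⟩
      intro x hx
      have := hA x hx a ha (by simp)
      rw [this]
    · rw [Finset.not_nonempty_iff_eq_empty] at hne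
      subst hne
      exact ⟨fun _ => false, ⟨_, rfl⟩, by simp⟩
  | succ k ih =>
    intro d A hA hcard τ
    cases d with
    | zero =>
      by_cases hne : A.Nonempty
      · obtain ⟨a, ha⟩ := hne
        refine ⟨fun _ => τ a, ⟨_, rfl⟩, ?_⟩
        intro x hx
        simp only [pow_zero] at hcard
        have := Finset.card_le_one.1 hcard x hx a ha
        rw [this]
      · rw [Finset.not_nonempty_iff_eq_empty] at hne
        subst hne
        exact ⟨fun _ => false, ⟨_, rfl⟩, by simp⟩
    | succ d =>
      have hsplit : (A.filter (fun x => co n k x = true)).card +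
          (A.filter (fun x => ¬ co n k x = true)).card = A.card :=
        Finset.card_filter_add_card_filter_not _
      have hA1 : ∀ x ∈ A.filter (fun x => co n k x = true),
          ∀ y ∈ A.filter (fun x => co n k x = true),
          (∀ j < k, co n j x = co n j y) → x = y := by
        intro x hx y hy h
        simp only [Finset.mem_filter] at hx hy
        refine hA x hx.1 y hy.1 ?_
        intro j hj
        rcases Nat.lt_succ_iff_lt_or_eq.1 hj with h' | h'
        · exact h j h'
        · subst h'; rw [hx.2, hy.2]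
      have hA0 : ∀ x ∈ A.filter (fun x => ¬ co n k x = true),
          ∀ y ∈ A.filter (fun x => ¬ co n k x = true),
          (∀ j < k, co n j x = co n j y) → x = y := by
        intro x hx y hy h
        simp only [Finset.mem_filter, Bool.not_eq_true] at hx hy
        refine hA x hx.1 y hy.1 ?_
        intro j hj
        rcases Nat.lt_succ_iff_lt_or_eq.1 hj with h' | h'
        · exact h j h'
        · subst h'; rw [hx.2, hy.2]
      rw [pow_succ] at hcard
      by_cases hle : (A.filter (fun x => co n k x = true)).card ≤ 2 ^ d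
      · obtain ⟨P, hP, hP'⟩ := ih (d + 1) _ hA0 (by rw [pow_succ]; omega) τ
        obtain ⟨Q, hQ, hQ'⟩ := ih d _ hA1 hle (fun x => xor (τ x) (P x))
        refine ⟨_, ⟨P, hP, Q, hQ, rfl⟩, ?_⟩
        intro x hx
        by_cases hc : co n k x = true
        · have := hQ' x (by simp [hx, hc])
          simp only [hc, this, Bool.true_and]
          cases P x <;> cases τ x <;> rfl
        · have := hP' x (by simp [hx, hc])
          simp only [Bool.not_eq_true] at hc
          simp only [hc, this, Bool.false_and, Bool.xor_false]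
      · have hle' : (A.filter (fun x => ¬ co n k x = true)).card ≤ 2 ^ d := by omega
        obtain ⟨P, hP, hP'⟩ := ih (d + 1) _ hA1 (by rw [pow_succ]; omega) τ
        obtain ⟨Q, hQ, hQ'⟩ := ih d _ hA0 hle' (fun x => xor (τ x) (P x))
        refine ⟨_, ⟨_, RM_xor n k (d + 1) P Q hP (RM_mono n k d hQ), Q, hQ, rfl⟩, ?_⟩
        intro x hx
        by_cases hc : co n k x = true
        · have := hP' x (by simp [hx, hc])
          simp only [hc, Bool.true_and, this]
          cases Q x <;> cases τ x <;> rfl
        · have := hQ' x (by simp [hx, hc])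
          simp only [Bool.not_eq_true] at hc
          simp only [hc, this, Bool.false_and, Bool.xor_false]
          cases P x <;> cases τ x <;> rfl

/-- Interpolation on arbitrary sets of at most `2 ^ d` points. -/
theorem RM_interp_all (n d : ℕ) (A : Finset (Fin n → Bool)) (hA : A.card ≤ 2 ^ d)
    (τ : (Fin n → Bool) → Bool) : ∃ f ∈ RM n n d, ∀ x ∈ A, f x = τ x := by
  refine RM_interp n n d A ?_ hA τ
  intro x _ y _ h
  funext j
  have := h j.1 j.2
  simpa [co, j.2] using this

/-- Exact counting in an interpolating linear family. -/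
theorem lin_count {X : Type} [DecidableEq X] (P : Finset (X → Bool))
    (hxor : ∀ f ∈ P, ∀ g ∈ P, (fun x => xor (f x) (g x)) ∈ P)
    (S : Finset X) (φ : X → X) (hφ : ∀ x ∈ S, ∀ y ∈ S, φ x ≠ y)
    (hint : ∀ τ : X → Bool, ∃ f ∈ P, ∀ x ∈ S ∪ S.image φ, f x = τ x) :
    (P.filter (fun p => ∀ x ∈ S, p x = p (φ x))).card * 2 ^ S.card ≤ P.card := by
  classical
  have hex : ∀ τ : Finset X, ∃ f ∈ P, (∀ x ∈ S, f x = decide (x ∈ τ)) ∧
      ∀ x ∈ S, f (φ x) = false := by
    intro τ
    obtain ⟨f, hf, hf'⟩ := hint (fun x => if x ∈ S then decide (x ∈ τ) else false)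
    refine ⟨f, hf, ?_, ?_⟩
    · intro x hx
      rw [hf' x (Finset.mem_union_left _ hx)]
      simp [hx]
    · intro x hx
      rw [hf' (φ x) (Finset.mem_union_right _ (Finset.mem_image_of_mem _ hx))]
      have : φ x ∉ S := fun h => hφ x hx _ h rfl
      simp [this]
  choose q hq hq1 hq2 using hex
  rw [← Finset.card_powerset, ← Finset.card_product]
  refine Finset.card_le_card_of_injOn (fun z => fun x => xor (z.1 x) (q z.2 x)) ?_ ?_
  · rintro ⟨p, τ⟩ h
    simp only [Finset.coe_product, Set.mem_prod, Finset.mem_coe, Finset.mem_filter] at h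
    exact hxor _ h.1.1 _ (hq τ)
  · rintro ⟨p, τ⟩ h ⟨p', τ'⟩ h' heq
    simp only [Finset.coe_product, Set.mem_prod, Finset.mem_coe, Finset.mem_filter,
      Finset.mem_powerset] at h h'
    simp only at heq
    have hττ : τ = τ' := by
      ext x
      by_cases hx : x ∈ S
      · have e1 := congrFun heq x
        have e2 := congrFun heq (φ x)
        simp only [hq1 _ x hx, hq2 _ x hx, Bool.xor_false] at e1 e2
        have e3 := h.1.2 x hx
        have e4 := h'.1.2 x hx
        rw [e3, e4, ← e2] at e1
        have : decide (x ∈ τ) = decide (x ∈ τ') := by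
          revert e1
          cases p (φ x) <;> cases decide (x ∈ τ) <;> cases decide (x ∈ τ') <;> simp
        simpa using this
      · constructor
        · intro hxτ; exact absurd (h.2 hxτ) hx
        · intro hxτ; exact absurd (h'.2 hxτ) hx
    subst hττ
    have : p = p' := by
      funext x
      have := congrFun heq x
      revert this
      cases p x <;> cases p' x <;> cases q τ x <;> simp
    rw [this]

/-- Product form of the counting bound. -/
theorem pow_count {X : Type} [DecidableEq X] (P : Finset (X → Bool)) (κ : ℕ)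
    (S : Finset X) (φ : X → X)
    (h : (P.filter (fun p => ∀ x ∈ S, p x = p (φ x))).card * 2 ^ S.card ≤ P.card) :
    (Finset.univ.filter (fun γ : Fin κ → ↥P => ∀ x ∈ S,
      (fun l => (γ l).1 x) = (fun l => (γ l).1 (φ x)))).card * (2 ^ κ) ^ S.card ≤
      Fintype.card (Fin κ → ↥P) := by
  classical
  have h1 : (Finset.univ.filter (fun γ : Fin κ → ↥P => ∀ x ∈ S,
      (fun l => (γ l).1 x) = (fun l => (γ l).1 (φ x)))) =
      Fintype.piFinset (fun _ : Fin κ => Finset.univ.filter
        (fun p : ↥P => ∀ x ∈ S, p.1 x = p.1 (φ x))) := by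
    ext γ
    simp only [Finset.mem_filter, Finset.mem_univ, true_and, Fintype.mem_piFinset]
    constructor
    · intro h l x hx
      exact congrFun (h x hx) l
    · intro h x hx
      funext l
      exact h l x hx
  have h2 : (Finset.univ.filter (fun p : ↥P => ∀ x ∈ S, p.1 x = p.1 (φ x))).card =
      (P.filter (fun p => ∀ x ∈ S, p x = p (φ x))).card := by
    refine Finset.card_bij (fun p _ => p.1) ?_ ?_ ?_
    · intro p hp
      simp only [Finset.mem_filter, Finset.mem_univ, true_and] at hp ⊢
      exact ⟨p.2, hp⟩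
    · intro p _ p' _ h
      exact Subtype.ext h
    · intro p hp
      simp only [Finset.mem_filter] at hp
      exact ⟨⟨p, hp.1⟩, by simpa using hp.2, rfl⟩
  rw [h1, Fintype.card_piFinset]
  simp only [Finset.prod_const, Finset.card_univ, Fintype.card_fin, Fintype.card_pi,
    Fintype.card_coe, h2]
  calc _ = ((P.filter (fun p => ∀ x ∈ S, p x = p (φ x))).card * 2 ^ S.card) ^ κ := by
        rw [mul_pow, ← pow_mul, ← pow_mul, mul_comm κ]
    _ ≤ P.card ^ κ := Nat.pow_le_pow_left h κ

end Pool.Agent.H589R2
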