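import Pool.Agent.H589R2.Defs
import Pool.Agent.H589R2.RMFam

/-!
# Circuits with AND/OR gates and free negations: counting and upper bounds
-/

namespace Pool.Agent.H589R2

/-- Functions on the cube. -/
abbrev Fn (n : ℕ) : Type := (Fin n → Bool) → Bool

section Count

open Finset Classical

/-- Value vectors of gate lists. -/
noncomputable def valsF (n s : ℕ) : Finset (Fin s → Fn n) :=
  Finset.univ.filter (fun w => ∃ p : Gates n s, ∀ j x, w j x = p.val x j)

theorem valsF_succ (n s : ℕ) :
    (valsF n (s + 1)).card ≤ (valsF n s).card * (2 * (2 * (n + s)) ^ 2) := by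
  have hsub : valsF n (s + 1) ⊆ ((valsF n s) ×ˢ
      (Finset.univ : Finset (Bool × Lit n s × Lit n s))).image
      (fun z => (Fin.snoc z.1 (fun x => if z.2.1 then
        litVal x (fun j => z.1 j x) z.2.2.1 || litVal x (fun j => z.1 j x) z.2.2.2
        else litVal x (fun j => z.1 j x) z.2.2.1 && litVal x (fun j => z.1 j x) z.2.2.2) :
          Fin (s + 1) → Fn n)) := by
    intro w hw
    simp only [valsF, mem_filter, mem_univ, true_and] at hw
    obtain ⟨p, hp⟩ := hw
    cases p with
    | snoc p isOr a b =>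
      simp only [mem_image, mem_product, mem_univ, and_true]
      refine ⟨(fun j x => p.val x j, isOr, a, b), ?_, ?_⟩
      · simp only [valsF, mem_filter, mem_univ, true_and]
        exact ⟨p, fun _ _ => rfl⟩
      · funext j x
        rw [hp j x]
        refine Fin.lastCases ?_ (fun j => ?_) j
        · simp [Gates.val]
        · simp [Gates.val]
  refine (Finset.card_le_card hsub).trans (Finset.card_image_le.trans ?_)
  rw [Finset.card_product]
  refine Nat.mul_le_mul_left _ ?_
  simp only [Finset.card_univ, Fintype.card_prod, Fintype.card_bool, Fintype.card_sum,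
    Fintype.card_fin]
  refine le_of_eq ?_
  ring

theorem valsF_card (n S : ℕ) : ∀ s ≤ S, (valsF n s).card ≤ (2 * (2 * (n + S)) ^ 2) ^ s := by
  intro s
  induction s with
  | zero =>
    intro _
    simp only [pow_zero]
    refine Finset.card_le_one.2 ?_
    intro a _ b _
    funext j
    exact j.elim0
  | succ s ih =>
    intro hs
    calc (valsF n (s + 1)).card ≤ (valsF n s).card * (2 * (2 * (n + s)) ^ 2) := valsF_succ n s
      _ ≤ (2 * (2 * (n + S)) ^ 2) ^ s * (2 * (2 * (n + S)) ^ 2) := by
          refine Nat.mul_le_mul (ih (by omega)) ?_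
          gcongr
          omega
      _ = _ := (pow_succ _ _).symm

/-- The functions computed by circuits of size at most `S`. -/
noncomputable def smallF (n S : ℕ) : Finset (Fn n) :=
  Finset.univ.filter (fun f => ∃ C : Circuit n, C.size ≤ S ∧ C.eval = f)

theorem smallF_card (n S w : ℕ) (hw : n + S + 1 ≤ 2 ^ w) :
    (smallF n S).card ≤ 2 ^ ((2 * w + 3) * (S + 1)) := by
  have hsub : smallF n S ⊆ (Finset.range (S + 1)).biUnion (fun s =>
      ((valsF n s) ×ˢ (Finset.univ : Finset (Lit n s))).image
        (fun z => fun x => litVal x (fun j => z.1 j x) z.2)) := by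
    intro f hf
    simp only [smallF, mem_filter, mem_univ, true_and] at hf
    obtain ⟨C, hC, rfl⟩ := hf
    simp only [mem_biUnion, mem_range, mem_image, mem_product, mem_univ, and_true]
    refine ⟨C.size, by omega, (fun j x => C.gates.val x j, C.out), ?_, ?_⟩
    · simp only [valsF, mem_filter, mem_univ, true_and]
      exact ⟨C.gates, fun _ _ => rfl⟩
    · rfl
  have h1 : (smallF n S).card ≤ ∑ _s ∈ Finset.range (S + 1),
      (2 * (2 * (n + S)) ^ 2) ^ S * (2 * (n + S)) := by
    refine (Finset.card_le_card hsub).trans (Finset.card_biUnion_le.trans ?_)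
    refine Finset.sum_le_sum (fun s hs => ?_)
    simp only [mem_range] at hs
    refine Finset.card_image_le.trans ?_
    rw [Finset.card_product]
    have h2 : (Finset.univ : Finset (Lit n s)).card = 2 * (n + s) := by
      simp only [Finset.card_univ, Fintype.card_prod, Fintype.card_bool, Fintype.card_sum,
        Fintype.card_fin]
      ring
    rw [h2]
    by_cases h0 : n + S = 0
    · have hn : n = 0 := by omega
      have hS : S = 0 := by omega
      have hs0 : s = 0 := by omega
      subst hn; subst hS; subst hs0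
      simp
    · refine Nat.mul_le_mul ((valsF_card n S s (by omega)).trans ?_) (by omega)
      refine Nat.pow_le_pow_right ?_ (by omega)
      have : 0 < n + S := by omega
      positivity
  have h3 : 2 * (2 * (n + S)) ^ 2 ≤ 2 ^ (2 * w + 3) := by
    calc 2 * (2 * (n + S)) ^ 2 ≤ 2 * (2 * 2 ^ w) ^ 2 := by
          gcongr
          omega
      _ = 2 ^ (2 * w + 3) := by
          rw [mul_pow, ← pow_mul, pow_add]
          ring
  calc (smallF n S).card ≤ (S + 1) * ((2 * (2 * (n + S)) ^ 2) ^ S * (2 * (n + S))) := by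
        simpa using h1
    _ ≤ 2 ^ w * ((2 ^ (2 * w + 3)) ^ S * (2 * 2 ^ w)) := by
        gcongr
        · omega
        · omega
    _ = 2 ^ ((2 * w + 3) * S + (2 * w + 1)) := by
        rw [← pow_mul, pow_add, pow_add]
        ring
    _ ≤ 2 ^ ((2 * w + 3) * (S + 1)) := by
        refine Nat.pow_le_pow_right (by norm_num) ?_
        ring_nf
        omega

end Count

section Cost

/-- Functions available (up to negation) in a gate list. -/
def Avail {n s : ℕ} (p : Gates n s) : Set (Fn n) :=
  {f | ∃ l : Lit n s, ∀ x, f x = litVal x (p.val x) l}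

/-- `B` can be computed from `A` with at most `t` more gates. -/
def Cost {n : ℕ} (A B : Set (Fn n)) (t : ℕ) : Prop :=
  ∀ (s : ℕ) (p : Gates n s), A ⊆ Avail p →
    ∃ s' ≤ s + t, ∃ p' : Gates n s', Avail p ⊆ Avail p' ∧ B ⊆ Avail p'

theorem avail_not {n s : ℕ} {p : Gates n s} {f : Fn n} (hf : f ∈ Avail p) :
    (fun x => !f x) ∈ Avail p := by
  obtain ⟨l, hl⟩ := hf
  refine ⟨(l.1, !l.2), ?_⟩
  intro x
  simp only [hl x, litVal]
  cases l.2 <;> simp

theorem avail_co {n s : ℕ} (p : Gates n s) {k : ℕ} (hk : k < n) : co n k ∈ Avail p := by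
  refine ⟨(Sum.inl ⟨k, hk⟩, false), ?_⟩
  intro x
  simp [litVal, H589R2.co, hk]

theorem Cost.sub {n : ℕ} {A B : Set (Fn n)} (h : B ⊆ A) : Cost A B 0 := by
  intro s p hA
  exact ⟨s, by omega, p, le_refl _, h.trans hA⟩

theorem Cost.mono {n : ℕ} {A A' B B' : Set (Fn n)} {t t' : ℕ} (h : Cost A B t) (hA : A ⊆ A')
    (hB : B' ⊆ B) (ht : t ≤ t') : Cost A' B' t' := by
  intro s p hp
  obtain ⟨s', hs', p', h1, h2⟩ := h s p (hA.trans hp)
  exact ⟨s', by omega, p', h1, hB.trans h2⟩

theorem Cost.trans {n : ℕ} {A B C : Set (Fn n)} {t t' : ℕ} (h : Cost A B t)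
    (h' : Cost (A ∪ B) C t') : Cost A (B ∪ C) (t + t') := by
  intro s p hp
  obtain ⟨s', hs', p', h1, h2⟩ := h s p hp
  obtain ⟨s'', hs'', p'', h3, h4⟩ := h' s' p' (Set.union_subset (hp.trans h1) h2)
  exact ⟨s'', by omega, p'', h1.trans h3, Set.union_subset (h2.trans h3) h4⟩

theorem Cost.union {n : ℕ} {A B C : Set (Fn n)} {t t' : ℕ} (h : Cost A B t)
    (h' : Cost A C t') : Cost A (B ∪ C) (t + t') :=
  h.trans (h'.mono Set.subset_union_left (le_refl _) (le_refl _))

theorem Avail.snoc_sub {n s : ℕ} (p : Gates n s) (isOr : Bool) (a b : Lit n s) :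
    Avail p ⊆ Avail (Gates.snoc p isOr a b) := by
  rintro f ⟨l, hl⟩
  obtain ⟨nd, ng⟩ := l
  cases nd with
  | inl i =>
    refine ⟨(Sum.inl i, ng), ?_⟩
    intro x
    rw [hl x]
    rfl
  | inr j =>
    refine ⟨(Sum.inr (Fin.castSucc j), ng), ?_⟩
    intro x
    rw [hl x]
    simp [litVal, Gates.val]

theorem Cost.and {n : ℕ} {A : Set (Fn n)} {f g : Fn n} (hf : f ∈ A) (hg : g ∈ A) :
    Cost A {fun x => f x && g x} 1 := by
  intro s p hA
  obtain ⟨a, ha⟩ := hA hf
  obtain ⟨b, hb⟩ := hA hg
  refine ⟨s + 1, le_refl _, Gates.snoc p false a b, Avail.snoc_sub _ _ _ _, ?_⟩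
  rintro _ rfl
  refine ⟨(Sum.inr (Fin.last s), false), ?_⟩
  intro x
  simp [litVal, Gates.val, ha x, hb x]

theorem Cost.or {n : ℕ} {A : Set (Fn n)} {f g : Fn n} (hf : f ∈ A) (hg : g ∈ A) :
    Cost A {fun x => f x || g x} 1 := by
  intro s p hA
  obtain ⟨a, ha⟩ := hA hf
  obtain ⟨b, hb⟩ := hA hg
  refine ⟨s + 1, le_refl _, Gates.snoc p true a b, Avail.snoc_sub _ _ _ _, ?_⟩
  rintro _ rfl
  refine ⟨(Sum.inr (Fin.last s), false), ?_⟩
  intro x
  simp [litVal, Gates.val, ha x, hb x]

theorem Cost.neg {n : ℕ} {A : Set (Fn n)} {f : Fn n} {t : ℕ} (hf : Cost A {f} t) :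
    Cost A {fun x => !f x} t := by
  intro s p hA
  obtain ⟨s', hs', p', h1, h2⟩ := hf s p hA
  refine ⟨s', hs', p', h1, ?_⟩
  rintro _ rfl
  exact avail_not (h2 rfl)

/-- Composition on single functions. -/
theorem Cost.and' {n : ℕ} {A : Set (Fn n)} {f g : Fn n} {t1 t2 : ℕ} (hf : Cost A {f} t1)
    (hg : Cost A {g} t2) : Cost A {fun x => f x && g x} (t1 + t2 + 1) := by
  have h := (hf.union hg).trans (C := {fun x => f x && g x}) (t' := 1)
    (Cost.and (Or.inr (Or.inl rfl)) (Or.inr (Or.inr rfl)))
  exact h.mono (le_refl _) Set.subset_union_right (le_refl _)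

theorem Cost.xor' {n : ℕ} {A : Set (Fn n)} {f g : Fn n} {t1 t2 : ℕ} (hf : Cost A {f} t1)
    (hg : Cost A {g} t2) : Cost A {fun x => xor (f x) (g x)} (t1 + t2 + 3) := by
  have h : Cost ({f} ∪ {g}) {fun x => xor (f x) (g x)} 3 := by
    have h1 : Cost ({f} ∪ {g} : Set (Fn n)) {fun x => f x || g x} 1 :=
      Cost.or (Or.inl rfl) (Or.inr rfl)
    have h2 : Cost ({f} ∪ {g} : Set (Fn n)) {fun x => !(f x && g x)} 1 :=
      (Cost.and (Or.inl rfl) (Or.inr rfl)).neg
    have h3 := h1.and' h2
    have : (fun x => xor (f x) (g x)) = (fun x => (f x || g x) && !(f x && g x)) := by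
      funext x
      cases f x <;> cases g x <;> rfl
    rw [this]
    exact h3
  have h' := (hf.union hg).trans (h.mono Set.subset_union_right (le_refl _) (le_refl _))
  exact h'.mono (le_refl _) Set.subset_union_right (le_refl _)

theorem Cost.mux {n : ℕ} {A : Set (Fn n)} {f g : Fn n} {t1 t2 : ℕ} {k : ℕ} (hk : k < n)
    (hf : Cost A {f} t1)
    (hg : Cost A {g} t2) :
    Cost A {fun x => if co n k x then f x else g x} (t1 + t2 + 3) := by
  intro s p hA
  obtain ⟨s1, hs1, p1, h1, h2⟩ := (hf.union hg) s p hA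
  have hc : co n k ∈ Avail p1 := avail_co p1 hk
  have hc' : (fun x => !co n k x) ∈ Avail p1 := avail_not hc
  have hf1 : f ∈ Avail p1 := h2 (Or.inl rfl)
  have hg1 : g ∈ Avail p1 := h2 (Or.inr rfl)
  have a1 : Cost (Avail p1) {fun x => co n k x && f x} 1 := Cost.and hc hf1
  have a2 : Cost (Avail p1) {fun x => !co n k x && g x} 1 := Cost.and hc' hg1
  have a3 := (a1.neg.and' a2.neg).neg
  have e : (fun x => if co n k x then f x else g x) =
      (fun x => !((!(co n k x && f x)) && (!(!co n k x && g x)))) := by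
    funext x
    cases co n k x <;> cases f x <;> cases g x <;> rfl
  obtain ⟨s2, hs2, p2, h3, h4⟩ := a3 s1 p1 (le_refl _)
  refine ⟨s2, by omega, p2, h1.trans h3, ?_⟩
  rw [e]
  exact h4

/-- The constant false function costs one gate. -/
theorem Cost.false' {n : ℕ} (hn : 0 < n) : Cost (∅ : Set (Fn n)) {fun _ => false} 1 := by
  intro s p _
  have h := Cost.and (A := Avail p) (avail_co p hn) (avail_not (avail_co p hn)) s p (le_refl _)
  have e : (fun x : Fin n → Bool => co n 0 x && !co n 0 x) = (fun _ => false) := by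
    funext x
    cases co n 0 x <;> rfl
  rw [e] at h
  exact h

/-- A finite set of functions, each of cost at most `t`. -/
theorem Cost.finset {n : ℕ} {A : Set (Fn n)} (B : Finset (Fn n)) (t : ℕ)
    (h : ∀ f ∈ B, Cost A {f} t) : Cost A (B : Set (Fn n)) (B.card * t) := by
  classical
  induction B using Finset.induction_on with
  | empty => simpa using (Cost.sub (Set.empty_subset A))
  | insert f B hf ih =>
    have h1 := ih (fun g hg => h g (Finset.mem_insert_of_mem hg))
    have h2 := h f (Finset.mem_insert_self f B)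
    have h3 := h1.union h2
    rw [Finset.card_insert_of_notMem hf]
    refine h3.mono (le_refl _) ?_ ?_
    · intro g hg
      simp only [Finset.coe_insert, Set.mem_insert_iff, Finset.mem_coe] at hg
      rcases hg with hg | hg
      · exact Or.inr hg
      · exact Or.inl hg
    · rw [Nat.add_mul]; omega

/-- Functions depending only on the first `k` coordinates. -/
def dep (n k : ℕ) : Set (Fn n) :=
  {f | ∀ x y, (∀ j < k, co n j x = co n j y) → f x = f y}

theorem dep_split {n k : ℕ} (hk : k < n) {f : Fn n} (hf : f ∈ dep n (k + 1)) :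
    ∃ f1 ∈ dep n k, ∃ f0 ∈ dep n k, f = fun x => if co n k x then f1 x else f0 x := by
  have key : ∀ b : Bool, (fun x => f (Function.update x ⟨k, hk⟩ b)) ∈ dep n k := by
    intro b x y hxy
    refine hf _ _ ?_
    intro j hj
    by_cases hjk : j = k
    · subst hjk
      simp [co, hk]
    · have hjk' : j < k := by omega
      have hjn : j < n := by omega
      have h := hxy j hjk'
      simp only [co, hjn, dif_pos] at h ⊢
      rw [Function.update_of_ne, Function.update_of_ne]
      · exact h
      · intro h'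
        exact hjk (congrArg Fin.val h')
      · intro h'
        exact hjk (congrArg Fin.val h')
  refine ⟨_, key true, _, key false, ?_⟩
  funext x
  by_cases hx : co n k x = true
  · simp only [hx, if_true]
    congr 1
    have : x ⟨k, hk⟩ = true := by simpa [co, hk] using hx
    rw [← this, Function.update_eq_self]
  · simp only [hx, Bool.false_eq_true, if_false]
    congr 1
    have : x ⟨k, hk⟩ = false := by simpa [co, hk] using hx
    rw [← this, Function.update_eq_self]

theorem dep_card (n k : ℕ) : (Set.toFinite (dep n k)).toFinset.card ≤ 2 ^ 2 ^ k := by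
  classical
  have hcard : Fintype.card ((Fin k → Bool) → Bool) = 2 ^ 2 ^ k := by simp
  rw [← hcard, ← Finset.card_univ]
  refine Finset.card_le_card_of_injOn
    (fun f => fun z : Fin k → Bool => f (fun i => if h : i.1 < k then z ⟨i.1, h⟩ else false))
    (fun _ _ => Finset.mem_coe.2 (Finset.mem_univ _)) ?_
  intro f hf g hg hfg
  simp only [Set.Finite.coe_toFinset] at hf hg
  funext x
  have h1 := congrFun hfg (fun j => co n j.1 x)
  simp only at h1
  have h2 : ∀ h ∈ dep n k, h (fun i : Fin n => if h : i.1 < k then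
      co n i.1 x else false) = h x := by
    intro h hh
    refine hh _ _ ?_
    intro j hj
    by_cases hjn : j < n
    · simp [co, hjn, hj]
    · simp [co, hjn]
  rw [h2 f hf, h2 g hg] at h1
  exact h1

/-- All functions of the first `b` coordinates together. -/
theorem cost_dep {n : ℕ} : ∀ b ≤ n, Cost ({fun _ => false} : Set (Fn n)) (dep n b)
    (6 * 2 ^ 2 ^ b) := by
  intro b
  induction b with
  | zero =>
    intro _ s p hA
    refine ⟨s, by omega, p, le_refl _, ?_⟩
    intro f hf
    have h0 : (fun _ => false : Fn n) ∈ Avail p := hA rfl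
    by_cases hc : f (fun _ => false) = true
    · have : f = fun _ => !false := by
        funext x
        rw [hf x (fun _ => false) (by simp)]
        simpa using hc
      rw [this]
      exact avail_not h0
    · have : f = fun _ => false := by
        funext x
        rw [hf x (fun _ => false) (by simp)]
        simpa using hc
      rw [this]
      exact h0
  | succ b ih =>
    intro hb
    have h1 := ih (by omega)
    have h2 : Cost (dep n b) ((Set.toFinite (dep n (b + 1))).toFinset : Set (Fn n))
        ((Set.toFinite (dep n (b + 1))).toFinset.card * 3) := by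
      refine Cost.finset _ 3 ?_
      intro f hf
      simp only [Set.Finite.mem_toFinset] at hf
      obtain ⟨f1, hf1, f0, hf0, rfl⟩ := dep_split (by omega) hf
      exact (Cost.mux (by omega) (Cost.sub (Set.singleton_subset_iff.2 hf1))
        (Cost.sub (Set.singleton_subset_iff.2 hf0)))
    have h3 := h1.trans (h2.mono Set.subset_union_right (le_refl _) (le_refl _))
    refine h3.mono (le_refl _) ?_ ?_
    · intro f hf
      right
      simpa using hf
    · have h4 := dep_card n (b + 1)
      have h5 : (2 : ℕ) ^ 2 ^ (b + 1) = 2 ^ 2 ^ b * 2 ^ 2 ^ b := by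
        rw [← pow_add, pow_succ, mul_two]
      have h6 : 2 ≤ 2 ^ 2 ^ b := by
        calc 2 = 2 ^ 1 := by norm_num
          _ ≤ 2 ^ 2 ^ b := Nat.pow_le_pow_right (by norm_num) Nat.one_le_two_pow
      have h7 : 2 * 2 ^ 2 ^ b ≤ 2 ^ 2 ^ (b + 1) := by
        rw [h5]
        exact Nat.mul_le_mul_right _ h6
      omega

/-- Multiplexer trees. -/
theorem cost_tree {n b : ℕ} : ∀ j, b + j ≤ n → ∀ f ∈ dep n (b + j),
    Cost (dep n b) {f} (3 * 2 ^ j - 3) := by
  intro j
  induction j with
  | zero =>
    intro _ f hf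
    exact (Cost.sub (Set.singleton_subset_iff.2 hf)).mono (le_refl _) (le_refl _) (by omega)
  | succ j ih =>
    intro hj f hf
    obtain ⟨f1, hf1, f0, hf0, rfl⟩ := dep_split (k := b + j) (by omega) hf
    refine (Cost.mux (by omega) (ih (by omega) f1 hf1) (ih (by omega) f0 hf0)).mono (le_refl _)
      (le_refl _) ?_
    have : 1 ≤ 2 ^ j := Nat.one_le_two_pow
    rw [pow_succ]
    omega

/-- Cost of Reed-Muller polynomials. -/
def rc : ℕ → ℕ → ℕ
  | 0, _ => 0
  | _ + 1, 0 => 0
  | k + 1, d + 1 => rc k (d + 1) + rc k d + 4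

theorem cost_RM {n : ℕ} : ∀ k d, k ≤ n → ∀ f ∈ RM n k d,
    Cost ({fun _ => false} : Set (Fn n)) {f} (rc k d) := by
  have hconst : ∀ c : Bool, Cost ({fun _ => false} : Set (Fn n)) {fun _ => c} 0 := by
    intro c
    cases c with
    | false => exact Cost.sub (le_refl _)
    | true =>
      have h : Cost ({fun _ => false} : Set (Fn n)) {fun _ => false} 0 := Cost.sub (le_refl _)
      exact h.neg
  intro k
  induction k with
  | zero =>
    rintro d _ f ⟨c, rfl⟩
    exact hconst c
  | succ k ih =>
    intro d hk f hf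
    cases d with
    | zero =>
      obtain ⟨c, rfl⟩ := hf
      exact hconst c
    | succ d =>
      obtain ⟨P, hP, Q, hQ, rfl⟩ := hf
      have h1 := ih (d + 1) (by omega) P hP
      have h2 := ih d (by omega) Q hQ
      have h3 : Cost ({fun _ => false} : Set (Fn n)) {fun x => co n k x && Q x}
          (rc k d + 1) := by
        intro s p hA
        obtain ⟨s1, hs1, p1, a1, a2⟩ := h2 s p hA
        obtain ⟨s2, hs2, p2, b1, b2⟩ := Cost.and (A := Avail p1) (avail_co p1 (show k < n by omega))
          (a2 rfl) s1 p1 (le_refl _)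
        exact ⟨s2, by omega, p2, a1.trans b1, b2⟩
      refine (h1.xor' h3).mono (le_refl _) (le_refl _) ?_
      simp only [rc]
      omega

theorem rc_bound : ∀ k d, 16 ^ k * (rc k d + 4) ≤ 4 * 16 ^ d * 17 ^ k := by
  intro k
  induction k with
  | zero =>
    intro d
    simp only [rc, pow_zero, one_mul, mul_one, Nat.zero_add]
    have : 1 ≤ 16 ^ d := Nat.one_le_pow _ _ (by norm_num)
    omega
  | succ k ih =>
    intro d
    cases d with
    | zero =>
      simp only [rc, pow_zero, Nat.zero_add, mul_one]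
      have : (16 : ℕ) ^ (k + 1) ≤ 17 ^ (k + 1) := Nat.pow_le_pow_left (by norm_num) _
      omega
    | succ d =>
      have h1 := ih (d + 1)
      have h2 := ih d
      simp only [rc]
      have e1 : 16 ^ (k + 1) * (rc k (d + 1) + rc k d + 4 + 4) =
          16 * (16 ^ k * (rc k (d + 1) + 4)) + 16 * (16 ^ k * (rc k d + 4)) := by
        ring
      have e2 : 4 * 16 ^ (d + 1) * 17 ^ (k + 1) =
          16 * (4 * 16 ^ (d + 1) * 17 ^ k) + 16 * (4 * 16 ^ d * 17 ^ k) := by
        ring
      rw [e1, e2]
      omega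

theorem pow17 (n : ℕ) : 17 ^ n ≤ 2 ^ (n / 8 + 1) * 16 ^ n := by
  obtain ⟨a, r, hr, rfl⟩ : ∃ a r, r < 8 ∧ n = 8 * a + r :=
    ⟨n / 8, n % 8, Nat.mod_lt _ (by norm_num), (Nat.div_add_mod n 8).symm⟩
  have h1 : (8 * a + r) / 8 = a := by omega
  rw [h1]
  have h2 : (17 : ℕ) ^ (8 * a) ≤ 2 ^ a * 16 ^ (8 * a) := by
    rw [pow_mul, pow_mul, ← mul_pow]
    exact Nat.pow_le_pow_left (by norm_num) _
  have h3 : (17 : ℕ) ^ r ≤ 2 * 16 ^ r := by
    interval_cases r <;> norm_num
  calc 17 ^ (8 * a + r) = 17 ^ (8 * a) * 17 ^ r := by rw [pow_add]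
    _ ≤ (2 ^ a * 16 ^ (8 * a)) * (2 * 16 ^ r) := Nat.mul_le_mul h2 h3
    _ = _ := by rw [pow_add, pow_add]; ring

theorem rc_le (n d : ℕ) : rc n d + 4 ≤ 2 ^ (4 * d + 3 + n / 8) := by
  have h1 := rc_bound n d
  have h2 := pow17 n
  have h3 : 16 ^ n * (rc n d + 4) ≤ 16 ^ n * (2 ^ (4 * d + 3 + n / 8)) := by
    calc 16 ^ n * (rc n d + 4) ≤ 4 * 16 ^ d * 17 ^ n := h1
      _ ≤ 4 * 16 ^ d * (2 ^ (n / 8 + 1) * 16 ^ n) := Nat.mul_le_mul_left _ h2
      _ = 16 ^ n * (2 ^ (4 * d + 3 + n / 8)) := by
          have : (16 : ℕ) ^ d = 2 ^ (4 * d) := by rw [pow_mul]; norm_num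
          rw [this, pow_add, pow_add, pow_add]
          ring
  exact Nat.le_of_mul_le_mul_left h3 (by positivity)

/-- Cost of a conjunction of equality tests. -/
theorem cost_eqs {n : ℕ} {A : Set (Fn n)} (h0 : Cost A {fun _ => true} 0) (κ : ℕ)
    (g c : Fin κ → Fn n) (t1 t2 : ℕ)
    (hg : ∀ l, Cost A {g l} t1) (hc : ∀ l, Cost A {c l} t2) :
    Cost A {fun x => decide ((fun l => g l x) = (fun l => c l x))} (κ * (t1 + t2 + 4)) := by
  induction κ with
  | zero =>
    refine h0.mono (le_refl _) ?_ (by omega)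
    rintro _ rfl
    simp only [Set.mem_singleton_iff]
    funext x
    have : (fun l => g l x) = (fun l => c l x) := by funext l; exact l.elim0
    simp [this]
  | succ κ ih =>
    have h1 := ih (fun l => g l.castSucc) (fun l => c l.castSucc) (fun l => hg _) (fun l => hc _)
    have h2 := ((hg (Fin.last κ)).xor' (hc (Fin.last κ))).neg
    refine (h1.and' h2).mono (le_refl _) ?_ ?_
    · rintro _ rfl
      simp only [Set.mem_singleton_iff]
      funext x
      by_cases hA : (fun l : Fin κ => g l.castSucc x) = (fun l => c l.castSucc x)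
      · by_cases hB : g (Fin.last κ) x = c (Fin.last κ) x
        · have : (fun l => g l x) = (fun l => c l x) := by
            funext l
            refine Fin.lastCases hB (fun l => ?_) l
            exact congrFun hA l
          simp [this, hB, hA]
        · have : (fun l => g l x) ≠ (fun l => c l x) := fun h => hB (congrFun h _)
          have hB' : (xor (g (Fin.last κ) x) (c (Fin.last κ) x)) = true := by
            revert hB
            cases g (Fin.last κ) x <;> cases c (Fin.last κ) x <;> simp
          simp [this, hB']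
      · have : (fun l => g l x) ≠ (fun l => c l x) := by
          intro h
          exact hA (by funext l; exact congrFun h l.castSucc)
        simp [this, hA]
    · ring_nf
      omega

end Cost

end Pool.Agent.H589R2
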