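import Pool.Agent.H589R2.DefsBP
import Pool.Agent.H589R2.Circ

/-!
# Branching programs: counting and upper bounds
-/

namespace Pool.Agent.H589R2

/-- A value function satisfying the branching equations computes the output. -/
theorem BP.eval_eq {n : ℕ} (B : BP n) (x : Fin n → Bool) (val : Fin B.inner → Bool)
    (hval : ∀ v, val v = Sum.elim val id (B.next v (x (B.var v)))) :
    B.eval x = val ⟨0, B.pos⟩ := by
  have key : ∀ (t : ℕ) (r : Fin B.inner ⊕ Bool),
      Sum.elim val id ((B.step x)^[t] r) = Sum.elim val id r := by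
    intro t
    induction t with
    | zero => intro r; rfl
    | succ t ih =>
      intro r
      rw [Function.iterate_succ_apply, ih]
      cases r with
      | inl v =>
        simp only [BP.step, Sum.elim_inl]
        exact (hval v).symm
      | inr c => rfl
  have prog : ∀ (t : ℕ) (v : Fin B.inner), (∃ c, (B.step x)^[t] (.inl v) = .inr c) ∨
      ∃ w : Fin B.inner, (B.step x)^[t] (.inl v) = .inl w ∧ v.val + t ≤ w.val := by
    intro t
    induction t with
    | zero => intro v; exact Or.inr ⟨v, rfl, le_refl _⟩
    | succ t ih =>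
      intro v
      rw [Function.iterate_succ_apply']
      rcases ih v with ⟨c, hc⟩ | ⟨w, hw, hle⟩
      · left; exact ⟨c, by rw [hc]; rfl⟩
      · rw [hw]
        simp only [BP.step]
        cases hnx : B.next w (x (B.var w)) with
        | inl w' =>
          right
          refine ⟨w', rfl, ?_⟩
          have := B.topo w _ w' hnx
          have h2 : w.val < w'.val := this
          omega
        | inr c => left; exact ⟨c, rfl⟩
  have h1 := key B.inner (.inl ⟨0, B.pos⟩)
  rcases prog B.inner ⟨0, B.pos⟩ with ⟨c, hc⟩ | ⟨w, _, hle⟩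
  · unfold BP.eval
    rw [hc] at h1 ⊢
    simpa using h1
  · exfalso
    have := w.2
    simp at hle
    omega

section Count

open Finset Classical

/-- One step of a coded program. -/
def codeStep {n k : ℕ} (z : (Fin k → Fin n) × (Fin k → Bool → Fin k ⊕ Bool))
    (x : Fin n → Bool) : Fin k ⊕ Bool → Fin k ⊕ Bool :=
  Sum.elim (fun v => z.2 v (x (z.1 v))) Sum.inr

/-- The output of a coded program. -/
def codeEval {n k : ℕ} (z : (Fin k → Fin n) × (Fin k → Bool → Fin k ⊕ Bool)) : Fn n :=
  fun x => Sum.elim (fun _ => false) id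
    ((codeStep z x)^[k] (if h : 0 < k then Sum.inl ⟨0, h⟩ else Sum.inr false))

theorem eval_eq_code {n : ℕ} (B : BP n) : B.eval = codeEval (B.var, B.next) := by
  funext x
  have h1 : B.step x = codeStep (B.var, B.next) x := by
    funext r
    cases r with
    | inl v => rfl
    | inr c => rfl
  have hp := B.pos
  unfold BP.eval codeEval
  rw [h1]
  simp only [hp, dif_pos]
  cases (codeStep (B.var, B.next) x)^[B.inner] (Sum.inl ⟨0, hp⟩) with
  | inl v => rfl
  | inr c => rfl

/-- The functions computed by branching programs of size at most `S`. -/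
noncomputable def smallB (n S : ℕ) : Finset (Fn n) :=
  Finset.univ.filter (fun f => ∃ B : BP n, B.size ≤ S ∧ B.eval = f)

theorem smallB_card (n S w : ℕ) (hw : n + S ≤ 2 ^ w) :
    (smallB n S).card ≤ 2 ^ (3 * w * (S + 1)) := by
  have hsub : smallB n S ⊆ (Finset.range (S - 1)).biUnion (fun k =>
      (Finset.univ : Finset ((Fin k → Fin n) × (Fin k → Bool → Fin k ⊕ Bool))).image
        codeEval) := by
    intro f hf
    simp only [smallB, mem_filter, mem_univ, true_and] at hf
    obtain ⟨B, hB, rfl⟩ := hf
    simp only [mem_biUnion, mem_range, mem_image, mem_univ, true_and]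
    refine ⟨B.inner, by unfold BP.size at hB; omega, (B.var, B.next), ?_⟩
    rw [eval_eq_code]
  have hcode : ∀ k ∈ Finset.range (S - 1),
      ((Finset.univ : Finset ((Fin k → Fin n) × (Fin k → Bool → Fin k ⊕ Bool))).image
        codeEval).card ≤ 2 ^ (3 * w * S) := by
    intro k hk
    simp only [mem_range] at hk
    refine Finset.card_image_le.trans ?_
    have h1 : (Finset.univ : Finset ((Fin k → Fin n) × (Fin k → Bool → Fin k ⊕ Bool))).card =
        n ^ k * ((k + 2) ^ 2) ^ k := by
      simp [Finset.card_univ, Fintype.card_prod]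
    rw [h1, ← mul_pow]
    have h2 : n * (k + 2) ^ 2 ≤ 2 ^ (3 * w) := by
      calc n * (k + 2) ^ 2 ≤ 2 ^ w * (2 ^ w) ^ 2 := by
            gcongr
            · omega
            · omega
        _ = 2 ^ (3 * w) := by rw [← pow_mul, ← pow_add]; congr 1; ring
    calc (n * (k + 2) ^ 2) ^ k ≤ (2 ^ (3 * w)) ^ k := Nat.pow_le_pow_left h2 k
      _ ≤ (2 ^ (3 * w)) ^ S := Nat.pow_le_pow_right (by positivity) (by omega)
      _ = _ := by rw [← pow_mul]
  calc (smallB n S).card ≤ ∑ _k ∈ Finset.range (S - 1), 2 ^ (3 * w * S) :=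
        (Finset.card_le_card hsub).trans
          (Finset.card_biUnion_le.trans (Finset.sum_le_sum hcode))
    _ = (S - 1) * 2 ^ (3 * w * S) := by simp
    _ ≤ 2 ^ (3 * w) * 2 ^ (3 * w * S) := by
        refine Nat.mul_le_mul_right _ ?_
        calc S - 1 ≤ 2 ^ w := by omega
          _ ≤ 2 ^ (3 * w) := Nat.pow_le_pow_right (by norm_num) (by omega)
    _ = 2 ^ (3 * w * (S + 1)) := by rw [← pow_add]; congr 1; ring

end Count

/-- A branching program without a designated source and without conditions on incoming edges,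
together with its table of values. -/
structure Pre (n k : ℕ) where
  var : Fin k → Fin n
  next : Fin k → Bool → Fin k ⊕ Bool
  topo : ∀ v b w, next v b = Sum.inl w → v < w
  V : (Fin n → Bool) → Fin k → Bool
  hV : ∀ x v, V x v = Sum.elim (V x) id (next v (x (var v)))

/-- The functions computed at the nodes and sinks. -/
def Pre.av {n k : ℕ} (B : Pre n k) : Set (Fn n) :=
  {f | ∃ r : Fin k ⊕ Bool, ∀ x, f x = Sum.elim (B.V x) id r}

/-- Adding a new node in front. -/
def Pre.cons {n k : ℕ} (B : Pre n k) (i : Fin n) (lo hi : Fin k ⊕ Bool) : Pre n (k + 1) where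
  var := Fin.cons i B.var
  next := Fin.cons (fun b => Sum.map Fin.succ id (if b then hi else lo))
    (fun v b => Sum.map Fin.succ id (B.next v b))
  topo := by
    intro v b w h
    refine Fin.cases ?_ (fun v => ?_) v h
    · intro h
      simp only [Fin.cons_zero] at h
      cases hr : (if b then hi else lo) with
      | inl r =>
        rw [hr] at h
        simp only [Sum.map_inl, Sum.inl.injEq] at h
        rw [← h]
        exact Fin.succ_pos r
      | inr c =>
        rw [hr] at h
        simp at h
    · intro h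
      simp only [Fin.cons_succ] at h
      cases hr : B.next v b with
      | inl r =>
        rw [hr] at h
        simp only [Sum.map_inl, Sum.inl.injEq] at h
        rw [← h]
        exact Fin.succ_lt_succ_iff.2 (B.topo v b r hr)
      | inr c =>
        rw [hr] at h
        simp at h
  V := fun x => Fin.cons (Sum.elim (B.V x) id (if x i then hi else lo)) (B.V x)
  hV := by
    intro x v
    refine Fin.cases ?_ (fun v => ?_) v
    · simp only [Fin.cons_zero]
      cases (if x i = true then hi else lo) with
      | inl r => simp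
      | inr c => simp
    · simp only [Fin.cons_succ]
      rw [B.hV x v]
      cases B.next v (x (B.var v)) with
      | inl r => simp
      | inr c => simp

theorem Pre.av_cons {n k : ℕ} (B : Pre n k) (i : Fin n) (lo hi : Fin k ⊕ Bool) :
    B.av ⊆ (B.cons i lo hi).av := by
  rintro f ⟨r, hr⟩
  refine ⟨Sum.map Fin.succ id r, ?_⟩
  intro x
  rw [hr x]
  cases r with
  | inl r => simp [Pre.cons]
  | inr c => simp

theorem Pre.av_const {n k : ℕ} (B : Pre n k) (c : Bool) : (fun _ => c) ∈ B.av :=
  ⟨Sum.inr c, fun _ => rfl⟩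

theorem Pre.av_node {n k : ℕ} (B : Pre n k) {i : ℕ} (hi : i < n) {f g : Fn n}
    (hf : f ∈ B.av) (hg : g ∈ B.av) :
    ∃ B' : Pre n (k + 1), B.av ⊆ B'.av ∧ (fun x => if co n i x then f x else g x) ∈ B'.av := by
  obtain ⟨r1, h1⟩ := hf
  obtain ⟨r0, h0⟩ := hg
  refine ⟨B.cons ⟨i, hi⟩ r0 r1, B.av_cons _ _ _, Sum.inl 0, ?_⟩
  intro x
  simp only [Pre.cons, Sum.elim_inl, Fin.cons_zero]
  by_cases hx : x ⟨i, hi⟩ = true
  · simp [co, hi, hx, h1 x]
  · simp only [Bool.not_eq_true] at hx
    simp [co, hi, hx, h0 x]

/-- `f` can be evaluated with `t` nodes in front of any two continuations. -/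
def BCost {n : ℕ} (f : Fn n) (t : ℕ) : Prop :=
  ∀ (k : ℕ) (B : Pre n k) (h1 h0 : Fn n), h1 ∈ B.av → h0 ∈ B.av →
    ∃ k' ≤ k + t, ∃ B' : Pre n k', B.av ⊆ B'.av ∧
      (fun x => if f x then h1 x else h0 x) ∈ B'.av

theorem BCost.mono {n : ℕ} {f : Fn n} {t t' : ℕ} (h : BCost f t) (ht : t ≤ t') :
    BCost f t' := by
  intro k B h1 h0 m1 m0
  obtain ⟨k', hk', B', a, b⟩ := h k B h1 h0 m1 m0
  exact ⟨k', by omega, B', a, b⟩

theorem BCost.const {n : ℕ} (c : Bool) : BCost (fun _ => c : Fn n) 0 := by
  intro k B h1 h0 m1 m0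
  refine ⟨k, by omega, B, le_refl _, ?_⟩
  cases c with
  | true => simpa using m1
  | false => simpa using m0

theorem BCost.not {n : ℕ} {f : Fn n} {t : ℕ} (h : BCost f t) : BCost (fun x => !f x) t := by
  intro k B h1 h0 m1 m0
  obtain ⟨k', hk', B', a, b⟩ := h k B h0 h1 m0 m1
  refine ⟨k', hk', B', a, ?_⟩
  have : (fun x => if (!f x) = true then h1 x else h0 x) = fun x => if f x then h0 x else h1 x := by
    funext x
    cases f x <;> rfl
  rw [this]
  exact b

theorem BCost.var {n i : ℕ} (hi : i < n) : BCost (co n i) 1 := by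
  intro k B h1 h0 m1 m0
  obtain ⟨B', a, b⟩ := B.av_node hi m1 m0
  exact ⟨k + 1, le_refl _, B', a, b⟩

theorem BCost.and {n : ℕ} {f g : Fn n} {t1 t2 : ℕ} (hf : BCost f t1) (hg : BCost g t2) :
    BCost (fun x => f x && g x) (t1 + t2) := by
  intro k B h1 h0 m1 m0
  obtain ⟨k1, hk1, B1, a1, b1⟩ := hg k B h1 h0 m1 m0
  obtain ⟨k2, hk2, B2, a2, b2⟩ := hf k1 B1 _ h0 b1 (a1 m0)
  refine ⟨k2, by omega, B2, a1.trans a2, ?_⟩
  have : (fun x => if (f x && g x) = true then h1 x else h0 x) =
      fun x => if f x = true then (if g x = true then h1 x else h0 x) else h0 x := by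
    funext x
    cases f x <;> cases g x <;> rfl
  rw [this]
  exact b2

theorem BCost.xor {n : ℕ} {f g : Fn n} {t1 t2 : ℕ} (hf : BCost f t1) (hg : BCost g t2) :
    BCost (fun x => Bool.xor (f x) (g x)) (t1 + 2 * t2) := by
  intro k B h1 h0 m1 m0
  obtain ⟨k1, hk1, B1, a1, b1⟩ := hg k B h1 h0 m1 m0
  obtain ⟨k2, hk2, B2, a2, b2⟩ := hg k1 B1 h0 h1 (a1 m0) (a1 m1)
  obtain ⟨k3, hk3, B3, a3, b3⟩ := hf k2 B2 _ _ b2 (a2 b1)
  refine ⟨k3, by omega, B3, (a1.trans a2).trans a3, ?_⟩
  have : (fun x => if (Bool.xor (f x) (g x)) = true then h1 x else h0 x) =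
      fun x => if f x = true then (if g x = true then h0 x else h1 x)
        else (if g x = true then h1 x else h0 x) := by
    funext x
    cases f x <;> cases g x <;> rfl
  rw [this]
  exact b3

/-- All functions of a set can be evaluated simultaneously in front of two continuations. -/
def BFam {n : ℕ} (S : Set (Fn n)) (t : ℕ) : Prop :=
  ∀ (k : ℕ) (B : Pre n k) (h1 h0 : Fn n), h1 ∈ B.av → h0 ∈ B.av →
    ∃ k' ≤ k + t, ∃ B' : Pre n k', B.av ⊆ B'.av ∧
      ∀ f ∈ S, (fun x => if f x then h1 x else h0 x) ∈ B'.av

theorem BFam.dep {n : ℕ} : ∀ b ≤ n, BFam (dep n b) (2 * 2 ^ 2 ^ b) := by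
  intro b
  induction b with
  | zero =>
    intro _ k B h1 h0 m1 m0
    refine ⟨k, by omega, B, le_refl _, ?_⟩
    intro f hf
    by_cases hc : f (fun _ => false) = true
    · have : f = fun _ => true := by
        funext x
        rw [hf x (fun _ => false) (by simp)]
        exact hc
      rw [this]
      simpa using m1
    · have : f = fun _ => false := by
        funext x
        rw [hf x (fun _ => false) (by simp)]
        simpa using hc
      rw [this]
      simpa using m0
  | succ b ih =>
    intro hb k B h1 h0 m1 m0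
    obtain ⟨k1, hk1, B1, a1, b1⟩ := ih (by omega) k B h1 h0 m1 m0
    have key : ∀ (S : Finset (Fn n)), (∀ f ∈ S, f ∈ H589R2.dep n (b + 1)) →
        ∃ k' ≤ k1 + S.card, ∃ B' : Pre n k', B1.av ⊆ B'.av ∧
          ∀ f ∈ S, (fun x => if f x then h1 x else h0 x) ∈ B'.av := by
      classical
      intro S
      induction S using Finset.induction_on with
      | empty => intro _; exact ⟨k1, by simp, B1, le_refl _, by simp⟩
      | insert f S hf ihS =>
        intro hS
        obtain ⟨k2, hk2, B2, a2, b2⟩ := ihS (fun g hg => hS g (Finset.mem_insert_of_mem hg))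
        obtain ⟨f1, hf1, f0, hf0, rfl⟩ := dep_split (by omega)
          (hS f (Finset.mem_insert_self f S))
        obtain ⟨B3, a3, b3⟩ := B2.av_node (i := b) (by omega) (a2 (b1 f1 hf1)) (a2 (b1 f0 hf0))
        refine ⟨k2 + 1, ?_, B3, a2.trans a3, ?_⟩
        · rw [Finset.card_insert_of_notMem hf]; omega
        · intro g hg
          rw [Finset.mem_insert] at hg
          rcases hg with rfl | hg
          · have e : (fun x => if (if co n b x = true then f1 x else f0 x) = true then h1 x
                else h0 x) =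
                fun x => if co n b x = true then (if f1 x = true then h1 x else h0 x)
                  else (if f0 x = true then h1 x else h0 x) := by
              funext x
              cases co n b x <;> simp
            rw [e]
            exact b3
          · exact a3 (b2 g hg)
    obtain ⟨k2, hk2, B2, a2, b2⟩ := key (Set.toFinite (H589R2.dep n (b + 1))).toFinset
      (fun f hf => (Set.Finite.mem_toFinset _).1 hf)
    refine ⟨k2, ?_, B2, a1.trans a2, fun f hf => b2 f ((Set.Finite.mem_toFinset _).2 hf)⟩
    have h4 := dep_card n (b + 1)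
    have h5 : (2 : ℕ) ^ 2 ^ (b + 1) = 2 ^ 2 ^ b * 2 ^ 2 ^ b := by
      rw [← pow_add, pow_succ, mul_two]
    have h6 : 2 ≤ 2 ^ 2 ^ b := by
      calc 2 = 2 ^ 1 := by norm_num
        _ ≤ 2 ^ 2 ^ b := Nat.pow_le_pow_right (by norm_num) Nat.one_le_two_pow
    have h7 : 2 * 2 ^ 2 ^ b ≤ 2 ^ 2 ^ (b + 1) := by
      rw [h5]
      exact Nat.mul_le_mul_right _ h6
    omega

/-- Table lookup by a decision tree on top of all functions of the first `b` variables. -/
theorem BCost.table {n b j : ℕ} (h : b + j ≤ n) {f : Fn n} (hf : f ∈ dep n (b + j)) :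
    BCost f (2 * 2 ^ 2 ^ b + 2 ^ j) := by
  intro k B h1 h0 m1 m0
  obtain ⟨k1, hk1, B1, a1, b1⟩ := BFam.dep b (by omega) k B h1 h0 m1 m0
  have key : ∀ j, b + j ≤ n → ∀ f ∈ dep n (b + j), ∀ (k2 : ℕ) (B2 : Pre n k2),
      (B1.av ⊆ B2.av) → ∃ k' ≤ k2 + (2 ^ j - 1), ∃ B' : Pre n k', B2.av ⊆ B'.av ∧
        (fun x => if f x then h1 x else h0 x) ∈ B'.av := by
    intro j
    induction j with
    | zero =>
      intro _ f hf k2 B2 hB
      exact ⟨k2, by omega, B2, le_refl _, hB (b1 f hf)⟩
    | succ j ih =>
      intro hj f hf k2 B2 hB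
      obtain ⟨f1, hf1, f0, hf0, rfl⟩ := dep_split (k := b + j) (by omega) hf
      obtain ⟨k3, hk3, B3, a3, b3⟩ := ih (by omega) f1 hf1 k2 B2 hB
      obtain ⟨k4, hk4, B4, a4, b4⟩ := ih (by omega) f0 hf0 k3 B3 (hB.trans a3)
      obtain ⟨B5, a5, b5⟩ := B4.av_node (i := b + j) (by omega) (a4 b3) b4
      have h1' : 1 ≤ 2 ^ j := Nat.one_le_two_pow
      refine ⟨k4 + 1, by rw [pow_succ]; omega, B5, (a3.trans a4).trans a5, ?_⟩
      have e : (fun x => if (if co n (b + j) x = true then f1 x else f0 x) = true then h1 x
            else h0 x) =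
            fun x => if co n (b + j) x = true then (if f1 x = true then h1 x else h0 x)
              else (if f0 x = true then h1 x else h0 x) := by
        funext x
        cases co n (b + j) x <;> simp
      rw [e]
      exact b5
  obtain ⟨k', hk', B', a2, b2⟩ := key j h f hf k1 B1 (le_refl _)
  have h1' : 1 ≤ 2 ^ j := Nat.one_le_two_pow
  exact ⟨k', by omega, B', a1.trans a2, b2⟩

/-- Cost of Reed-Muller polynomials for branching programs. -/
def rb : ℕ → ℕ → ℕ
  | 0, _ => 0
  | _ + 1, 0 => 0
  | k + 1, d + 1 => rb k (d + 1) + 2 * (rb k d + 1)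

theorem BCost.RM {n : ℕ} : ∀ k d, k ≤ n → ∀ f ∈ RM n k d, BCost f (rb k d) := by
  intro k
  induction k with
  | zero =>
    rintro d _ f ⟨c, rfl⟩
    exact BCost.const c
  | succ k ih =>
    intro d hk f hf
    cases d with
    | zero =>
      obtain ⟨c, rfl⟩ := hf
      exact BCost.const c
    | succ d =>
      obtain ⟨P, hP, Q, hQ, rfl⟩ := hf
      have h1 := ih (d + 1) (by omega) P hP
      have h2 := ih d (by omega) Q hQ
      have h3 := (BCost.var (n := n) (i := k) (by omega)).and h2
      refine (h1.xor h3).mono ?_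
      simp only [rb]
      omega

theorem rb_bound : ∀ k d, 16 ^ k * (rb k d + 2) ≤ 2 * 32 ^ d * 17 ^ k := by
  intro k
  induction k with
  | zero =>
    intro d
    simp only [rb, pow_zero, one_mul, mul_one, Nat.zero_add]
    have : 1 ≤ 32 ^ d := Nat.one_le_pow _ _ (by norm_num)
    omega
  | succ k ih =>
    intro d
    cases d with
    | zero =>
      simp only [rb, pow_zero, Nat.zero_add, mul_one]
      have : (16 : ℕ) ^ (k + 1) ≤ 17 ^ (k + 1) := Nat.pow_le_pow_left (by norm_num) _
      omega
    | succ d =>
      have h1 := ih (d + 1)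
      have h2 := ih d
      simp only [rb]
      have e1 : 16 ^ (k + 1) * (rb k (d + 1) + 2 * (rb k d + 1) + 2) ≤
          16 * (16 ^ k * (rb k (d + 1) + 2)) + 32 * (16 ^ k * (rb k d + 2)) := by
        have : 16 ^ (k + 1) * (rb k (d + 1) + 2 * (rb k d + 1) + 2) + 16 ^ (k + 1) * 2 =
          16 * (16 ^ k * (rb k (d + 1) + 2)) + 32 * (16 ^ k * (rb k d + 2)) := by ring
        omega
      have e2 : 2 * 32 ^ (d + 1) * 17 ^ (k + 1) =
          16 * (2 * 32 ^ (d + 1) * 17 ^ k) + 32 * (2 * 32 ^ d * 17 ^ k) := by
        ring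
      rw [e2]
      omega

theorem rb_le (n d : ℕ) : rb n d + 2 ≤ 2 ^ (5 * d + 2 + n / 8) := by
  have h1 := rb_bound n d
  have h2 := pow17 n
  have h3 : 16 ^ n * (rb n d + 2) ≤ 16 ^ n * (2 ^ (5 * d + 2 + n / 8)) := by
    calc 16 ^ n * (rb n d + 2) ≤ 2 * 32 ^ d * 17 ^ n := h1
      _ ≤ 2 * 32 ^ d * (2 ^ (n / 8 + 1) * 16 ^ n) := Nat.mul_le_mul_left _ h2
      _ = 16 ^ n * (2 ^ (5 * d + 2 + n / 8)) := by
          have : (32 : ℕ) ^ d = 2 ^ (5 * d) := by rw [pow_mul]; norm_num
          rw [this, pow_add, pow_add, pow_add]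
          ring
  exact Nat.le_of_mul_le_mul_left h3 (by positivity)

/-- Cost of a conjunction of equality tests. -/
theorem BCost.eqs {n : ℕ} (κ : ℕ)
    (g c : Fin κ → Fn n) (t1 t2 : ℕ)
    (hg : ∀ l, BCost (g l) t1) (hc : ∀ l, BCost (c l) t2) :
    BCost (fun x => decide ((fun l => g l x) = (fun l => c l x))) (κ * (2 * t1 + t2)) := by
  induction κ with
  | zero =>
    have : (fun x : Fin n → Bool => decide ((fun l => g l x) = (fun l => c l x))) =
        fun _ => true := by
      funext x
      have : (fun l => g l x) = (fun l => c l x) := by funext l; exact l.elim0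
      simp [this]
    rw [this]
    exact (BCost.const true).mono (by omega)
  | succ κ ih =>
    have h1 := ih (fun l => g l.castSucc) (fun l => c l.castSucc) (fun l => hg _) (fun l => hc _)
    have h2 := ((hc (Fin.last κ)).xor (hg (Fin.last κ))).not
    have h3 := h1.and h2
    have e : (fun x : Fin n → Bool => decide ((fun l => g l x) = (fun l => c l x))) =
        fun x => decide ((fun l : Fin κ => g l.castSucc x) = (fun l => c l.castSucc x)) &&
          !(Bool.xor (c (Fin.last κ) x) (g (Fin.last κ) x)) := by
      funext x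
      by_cases hA : (fun l : Fin κ => g l.castSucc x) = (fun l => c l.castSucc x)
      · by_cases hB : g (Fin.last κ) x = c (Fin.last κ) x
        · have : (fun l => g l x) = (fun l => c l x) := by
            funext l
            refine Fin.lastCases hB (fun l => ?_) l
            exact congrFun hA l
          simp [this, hB, hA]
        · have : (fun l => g l x) ≠ (fun l => c l x) := fun h => hB (congrFun h _)
          have hB' : (Bool.xor (c (Fin.last κ) x) (g (Fin.last κ) x)) = true := by
            revert hB
            cases g (Fin.last κ) x <;> cases c (Fin.last κ) x <;> simp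
          simp [this, hB']
      · have : (fun l => g l x) ≠ (fun l => c l x) := by
          intro h
          exact hA (by funext l; exact congrFun h l.castSucc)
        simp [this, hA]
    rw [e]
    refine h3.mono ?_
    ring_nf
    omega

/-- Deleting a node without incoming edges. -/
theorem Pre.delete {n k : ℕ} (B : Pre n (k + 1)) (w : Fin (k + 1))
    (hno : ∀ v b, B.next v b ≠ Sum.inl w) :
    ∃ B' : Pre n k, ∀ r : Fin (k + 1) ⊕ Bool, r ≠ Sum.inl w →
      (fun x => Sum.elim (B.V x) id r) ∈ B'.av := by
  have hq : ∀ r : Fin (k + 1) ⊕ Bool, ∃ r' : Fin k ⊕ Bool, r ≠ Sum.inl w →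
      Sum.map w.succAbove id r' = r := by
    intro r
    cases r with
    | inl u =>
      by_cases hu : u = w
      · exact ⟨Sum.inr false, fun h => absurd (by rw [hu]) h⟩
      · obtain ⟨u', hu'⟩ := Fin.exists_succAbove_eq hu
        exact ⟨Sum.inl u', fun _ => by simp [hu']⟩
    | inr c => exact ⟨Sum.inr c, fun _ => rfl⟩
  choose q hq using hq
  refine ⟨{ var := fun v => B.var (w.succAbove v)
            next := fun v b => q (B.next (w.succAbove v) b)
            topo := ?_
            V := fun x v => B.V x (w.succAbove v)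
            hV := ?_ }, ?_⟩
  · intro v b u h
    have h1 := hq _ (hno (w.succAbove v) b)
    rw [h] at h1
    simp only [Sum.map_inl] at h1
    have h2 := B.topo _ _ _ h1.symm
    exact (Fin.succAbove_lt_succAbove_iff).1 h2
  · intro x v
    have h1 := hq _ (hno (w.succAbove v) (x (B.var (w.succAbove v))))
    rw [B.hV x (w.succAbove v)]
    conv_lhs => rw [← h1]
    cases q (B.next (w.succAbove v) (x (B.var (w.succAbove v)))) with
    | inl u => rfl
    | inr c => rfl
  · intro r hr
    refine ⟨q r, ?_⟩
    intro x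
    conv_lhs => rw [← hq r hr]
    cases q r with
    | inl u => rfl
    | inr c => rfl

/-- A program for a constant function. -/
theorem exists_BP_const {n : ℕ} (hn : 1 ≤ n) (c : Bool) :
    ∃ P : BP n, P.size ≤ 4 ∧ P.eval = fun _ => c := by
  refine ⟨{ inner := 2
            var := fun _ => ⟨0, hn⟩
            next := fun v b => if v = 0 then (if b then Sum.inl 1 else Sum.inr c)
              else (if b then Sum.inr c else Sum.inr (!c))
            topo := ?_
            pos := by norm_num
            reach := ?_
            sinks := ?_ }, le_refl _, ?_⟩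
  · intro v b w h
    by_cases hv : v = 0
    · subst hv
      cases b
      · simp at h
      · simp at h
        rw [← h]
        decide
    · cases b <;> simp [hv] at h
  · intro w hw
    refine ⟨0, true, ?_⟩
    have : w = 1 := by
      apply Fin.ext
      have := w.2
      simp
      omega
    simp [this]
  · intro c'
    by_cases h : c' = c
    · exact ⟨0, false, by simp [h]⟩
    · refine ⟨1, false, ?_⟩
      have : c' = !c := by cases c <;> cases c' <;> simp_all
      simp [this]
  · funext x
    refine (BP.eval_eq _ x (fun v => if v = 0 then c else (if x ⟨0, hn⟩ then c else !c)) ?_).trans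
      ?_
    · intro v
      by_cases hv : v = 0
      · subst hv
        cases x ⟨0, hn⟩ <;> simp
      · cases x ⟨0, hn⟩ <;> simp [hv]
    · simp

/-- Every function computed at a node of a preliminary program has a genuine branching program
of essentially the same size. -/
theorem exists_BP {n : ℕ} (hn : 1 ≤ n) (F : Fn n) (k : ℕ) (B : Pre n k) (hF : F ∈ B.av) :
    ∃ P : BP n, P.size ≤ k + 4 ∧ P.eval = F := by
  classical
  by_cases hconst : ∃ c, F = fun _ => c
  · obtain ⟨c, rfl⟩ := hconst
    obtain ⟨P, h1, h2⟩ := exists_BP_const hn c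
    exact ⟨P, by omega, h2⟩
  have hex : ∃ k, ∃ B : Pre n k, F ∈ B.av := ⟨k, B, hF⟩
  obtain ⟨k₀, ⟨B₀, hB₀⟩, hmin, hle⟩ : ∃ k₀, (∃ B : Pre n k₀, F ∈ B.av) ∧
      (∀ m, m < k₀ → ¬ ∃ B : Pre n m, F ∈ B.av) ∧ k₀ ≤ k :=
    ⟨Nat.find hex, Nat.find_spec hex, fun m hm => Nat.find_min hex hm,
      Nat.find_min' hex ⟨B, hF⟩⟩
  obtain ⟨r, hr⟩ := hB₀
  cases k₀ with
  | zero =>
    exfalso
    cases r with
    | inl v => exact v.elim0
    | inr c => exact hconst ⟨c, funext hr⟩
  | succ k₁ =>
    have hdel : ∀ w : Fin (k₁ + 1), r ≠ Sum.inl w → ∃ v b, B₀.next v b = Sum.inl w := by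
      intro w hw
      by_contra hcon
      push Not at hcon
      obtain ⟨B', hB'⟩ := B₀.delete w hcon
      refine hmin k₁ (by omega) ⟨B', ?_⟩
      have := hB' r hw
      have e : F = fun x => Sum.elim (B₀.V x) id r := funext hr
      rw [e]
      exact this
    have hroot : r = Sum.inl 0 := by
      by_contra hne
      obtain ⟨v, b, hv⟩ := hdel 0 hne
      have := B₀.topo v b 0 hv
      exact absurd this (Fin.not_lt_zero v)
    subst hroot
    have hsinks : ∀ c : Bool, ∃ v b, B₀.next v b = Sum.inr c := by
      intro c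
      by_contra hcon
      push Not at hcon
      have hval : ∀ (d : ℕ) (v : Fin (k₁ + 1)), k₁ - v.val ≤ d → ∀ x, B₀.V x v = !c := by
        intro d
        induction d with
        | zero =>
          intro v hv x
          rw [B₀.hV x v]
          cases hnx : B₀.next v (x (B₀.var v)) with
          | inl u =>
            have := B₀.topo _ _ _ hnx
            have h1 : v.val < u.val := this
            have := u.2
            omega
          | inr c' =>
            have : c' ≠ c := fun h => hcon v _ (by rw [hnx, h])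
            simp only [Sum.elim_inr, id]
            revert this
            cases c <;> cases c' <;> simp
        | succ d ih =>
          intro v hv x
          rw [B₀.hV x v]
          cases hnx : B₀.next v (x (B₀.var v)) with
          | inl u =>
            have := B₀.topo _ _ _ hnx
            have h1 : v.val < u.val := this
            simp only [Sum.elim_inl]
            exact ih u (by omega) x
          | inr c' =>
            have : c' ≠ c := fun h => hcon v _ (by rw [hnx, h])
            simp only [Sum.elim_inr, id]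
            revert this
            cases c <;> cases c' <;> simp
      refine hconst ⟨!c, ?_⟩
      funext x
      rw [hr x]
      simp only [Sum.elim_inl]
      exact hval k₁ 0 (by omega) x
    refine ⟨{ inner := k₁ + 1
              var := B₀.var
              next := B₀.next
              topo := B₀.topo
              pos := Nat.succ_pos _
              reach := ?_
              sinks := hsinks }, ?_, ?_⟩
    · intro w hw
      refine hdel w ?_
      intro h
      simp only [Sum.inl.injEq] at h
      rw [← h] at hw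
      exact hw rfl
    · show k₁ + 1 + 2 ≤ k + 4
      omega
    · funext x
      refine (BP.eval_eq _ x (B₀.V x) (B₀.hV x)).trans ?_
      rw [hr x]
      rfl

/-- The empty preliminary program. -/
def Pre.nil (n : ℕ) : Pre n 0 where
  var := fun v => v.elim0
  next := fun v => v.elim0
  topo := fun v => v.elim0
  V := fun _ v => v.elim0
  hV := fun _ v => v.elim0

/-- From evaluation cost to branching programs. -/
theorem BCost.exists_BP {n : ℕ} (hn : 1 ≤ n) {F : Fn n} {t : ℕ} (h : BCost F t) :
    ∃ P : BP n, P.size ≤ t + 4 ∧ P.eval = F := by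
  obtain ⟨k', hk', B', -, hB'⟩ := h 0 (Pre.nil n) (fun _ => true) (fun _ => false)
    (Pre.av_const _ _) (Pre.av_const _ _)
  obtain ⟨P, hP, hP'⟩ := H589R2.exists_BP hn F k' B' (by
    have : F = fun x => if F x = true then true else false := by
      funext x; cases F x <;> rfl
    rw [this]
    exact hB')
  exact ⟨P, by omega, hP'⟩

end Pool.Agent.H589R2
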