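import Pool.Agent.H589R2.MonoCrit

/-!
# The abstract lower bound
-/

namespace Pool.Agent.H589R2

open Finset

theorem card_pi_mem {X Y : Type} [Fintype X] [DecidableEq X] [Fintype Y] [DecidableEq Y]
    (A : Finset X) (t : Finset Y) :
    (Finset.univ.filter (fun ζ : X → Y => ∀ x ∈ A, ζ x ∈ t)).card =
      t.card ^ A.card * Fintype.card Y ^ (Fintype.card X - A.card) := by
  have h1 : (Finset.univ.filter (fun ζ : X → Y => ∀ x ∈ A, ζ x ∈ t)) =
      Fintype.piFinset (fun x => if x ∈ A then t else Finset.univ) := by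
    ext ζ
    simp only [mem_filter, mem_univ, true_and, Fintype.mem_piFinset]
    constructor
    · intro h x
      by_cases hx : x ∈ A
      · simp [hx, h x hx]
      · simp [hx]
    · intro h x hx
      have := h x
      simpa [hx] using this
  rw [h1, Fintype.card_piFinset]
  have h2 : ∀ x : X, (if x ∈ A then t else (Finset.univ : Finset Y)).card =
      if x ∈ A then t.card else Fintype.card Y := by
    intro x
    split_ifs
    · rfl
    · rfl
  simp only [h2]
  rw [Finset.prod_ite]
  simp only [prod_const]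
  congr 1
  · congr 1
    congr 1
    ext x; simp
  · congr 1
    have : (Finset.univ.filter (fun x => ¬ x ∈ A)) = Aᶜ := by ext x; simp
    rw [this, Finset.card_compl]

/-- Arithmetic-geometric mean inequality in the natural numbers. -/
theorem prod_mul_pow_le {R : Type} [Fintype R] [Nonempty R] (ρ : R → ℕ) :
    (∏ i, ρ i) * Fintype.card R ^ Fintype.card R ≤ (∑ i, ρ i) ^ Fintype.card R := by
  have hm : (0 : ℝ) < Fintype.card R := by exact_mod_cast Fintype.card_pos
  have key := Real.geom_mean_le_arith_mean_weighted (Finset.univ : Finset R)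
    (fun _ => 1 / (Fintype.card R : ℝ)) (fun i => (ρ i : ℝ)) (fun i _ => by positivity)
    (by simp [hm.ne']) (fun i _ => by positivity)
  have h1 : (∏ i, ((ρ i : ℝ) ^ (1 / (Fintype.card R : ℝ)))) ^ Fintype.card R =
      ∏ i, (ρ i : ℝ) := by
    rw [← Finset.prod_pow]
    refine Finset.prod_congr rfl (fun i _ => ?_)
    rw [← Real.rpow_natCast, ← Real.rpow_mul (by positivity)]
    rw [one_div, inv_mul_cancel₀ hm.ne', Real.rpow_one]
  have h2 := pow_le_pow_left₀ (by positivity) key (Fintype.card R)
  rw [h1, ← Finset.mul_sum, mul_pow] at h2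
  have h3 : (∏ i, (ρ i : ℝ)) * (Fintype.card R : ℝ) ^ Fintype.card R ≤
      (∑ i, (ρ i : ℝ)) ^ Fintype.card R := by
    calc (∏ i, (ρ i : ℝ)) * (Fintype.card R : ℝ) ^ Fintype.card R
        ≤ ((1 / (Fintype.card R : ℝ)) ^ Fintype.card R * (∑ i, (ρ i : ℝ)) ^ Fintype.card R) *
          (Fintype.card R : ℝ) ^ Fintype.card R :=
          mul_le_mul_of_nonneg_right h2 (by positivity)
      _ = (∑ i, (ρ i : ℝ)) ^ Fintype.card R := by
          rw [mul_right_comm, ← mul_pow, one_div, inv_mul_cancel₀ hm.ne', one_pow, one_mul]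
  exact_mod_cast h3

theorem bernoulli_nat (B : ℕ) (hB : 1 ≤ B) : (B - 1) ^ B * 2 ≤ B ^ B := by
  obtain ⟨b, rfl⟩ : ∃ b, B = b + 1 := ⟨B - 1, by omega⟩
  simp only [Nat.add_sub_cancel]
  have h1 : b ^ (b + 1) + (b + 1) * b ^ b ≤ (b + 1) ^ (b + 1) := by
    have h := add_pow b 1 (b + 1)
    rw [h, Finset.sum_range_succ, Finset.sum_range_succ]
    simp only [one_pow, mul_one, Nat.choose_self, Nat.cast_one, Nat.choose_succ_self_right,
      Nat.cast_add]
    simp only [Nat.cast_id]
    have : b ^ b * (b + 1) = (b + 1) * b ^ b := mul_comm _ _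
    rw [this]
    omega
  calc b ^ (b + 1) * 2 = b ^ (b + 1) + b * b ^ b := by ring
    _ ≤ b ^ (b + 1) + (b + 1) * b ^ b := by
        have : b * b ^ b ≤ (b + 1) * b ^ b := Nat.mul_le_mul_right _ (Nat.le_succ b)
        omega
    _ ≤ _ := h1

section Abs

variable {X R Q : Type} [Fintype X] [DecidableEq X] [Fintype R] [DecidableEq R] [Nonempty R]
  [Fintype Q] [DecidableEq Q] [Nonempty Q]

/-- Choice of the section `u`. -/
theorem exists_section (e : X ≃ R × Q) (𝒞 : Finset (X → Bool)) (L : ℕ)
    (hcard : 𝒞.card ≤ 2 ^ (Fintype.card R * L)) :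
    ∃ u : R → Q, ∀ F ∈ 𝒞, (∀ i, F (e.symm (i, u i)) = true) →
      Fintype.card R * Fintype.card Q ≤
        (Finset.univ.filter (fun x => F x = true)).card * 2 ^ (L + 1) := by
  classical
  by_contra hcon
  push Not at hcon
  set m := Fintype.card R with hm
  set q := Fintype.card Q with hq
  have hm0 : 0 < m := Fintype.card_pos
  have hq0 : 0 < q := Fintype.card_pos
  set bad := 𝒞.filter (fun F => (Finset.univ.filter (fun x => F x = true)).card * 2 ^ (L + 1)
    < m * q) with hbad
  have hcov : (Finset.univ : Finset (R → Q)) ⊆ bad.biUnion (fun F =>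
      Finset.univ.filter (fun u : R → Q => ∀ i, F (e.symm (i, u i)) = true)) := by
    intro u _
    obtain ⟨F, hF, h1, h2⟩ := hcon u
    simp only [mem_biUnion, mem_filter, mem_univ, true_and, hbad]
    exact ⟨F, ⟨hF, h2⟩, h1⟩
  have h1 : q ^ m ≤ ∑ F ∈ bad,
      (Finset.univ.filter (fun u : R → Q => ∀ i, F (e.symm (i, u i)) = true)).card := by
    calc q ^ m = (Finset.univ : Finset (R → Q)).card := by
          simp [hm, hq]
      _ ≤ _ := Finset.card_le_card hcov
      _ ≤ _ := Finset.card_biUnion_le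
  have h2 : ∀ F ∈ bad,
      (Finset.univ.filter (fun u : R → Q => ∀ i, F (e.symm (i, u i)) = true)).card *
        2 ^ ((L + 1) * m) ≤ q ^ m := by
    intro F hF
    simp only [hbad, mem_filter] at hF
    set ρ : R → ℕ := fun i => (Finset.univ.filter (fun v : Q => F (e.symm (i, v)) = true)).card
      with hρ
    have e1 : (Finset.univ.filter (fun u : R → Q => ∀ i, F (e.symm (i, u i)) = true)).card =
        ∏ i, ρ i := by
      rw [← Fintype.card_piFinset]
      congr 1
      ext u
      simp [Fintype.mem_piFinset]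
    have e2 : (Finset.univ.filter (fun x => F x = true)).card = ∑ i, ρ i := by
      have : (Finset.univ.filter (fun x => F x = true)).card =
          (Finset.univ.filter (fun z : R × Q => F (e.symm z) = true)).card := by
        refine Finset.card_bij (fun x _ => e x) ?_ ?_ ?_
        · intro x hx
          simpa using hx
        · intro x _ y _ h
          exact e.injective h
        · intro z hz
          refine ⟨e.symm z, by simpa using hz, by simp⟩
      rw [this, Finset.card_filter, Fintype.sum_prod_type]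
      refine Finset.sum_congr rfl (fun i _ => ?_)
      rw [hρ]
      simp only
      rw [Finset.card_filter]
    rw [e1]
    rw [e2] at hF
    have e3 := prod_mul_pow_le ρ
    rw [← hm] at e3
    have e4 : (∏ i, ρ i) * m ^ m * 2 ^ ((L + 1) * m) ≤ (m * q) ^ m := by
      calc (∏ i, ρ i) * m ^ m * 2 ^ ((L + 1) * m) ≤ (∑ i, ρ i) ^ m * 2 ^ ((L + 1) * m) :=
            Nat.mul_le_mul_right _ e3
        _ = ((∑ i, ρ i) * 2 ^ (L + 1)) ^ m := by rw [mul_pow, pow_mul]
        _ ≤ (m * q) ^ m := Nat.pow_le_pow_left hF.2.le m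
    rw [mul_pow] at e4
    have hmm : 0 < m ^ m := pow_pos hm0 m
    refine Nat.le_of_mul_le_mul_left ?_ hmm
    calc m ^ m * ((∏ i, ρ i) * 2 ^ ((L + 1) * m)) = (∏ i, ρ i) * m ^ m * 2 ^ ((L + 1) * m) := by
          ring
      _ ≤ _ := e4
  have h3 : (∑ F ∈ bad,
      (Finset.univ.filter (fun u : R → Q => ∀ i, F (e.symm (i, u i)) = true)).card) *
        2 ^ ((L + 1) * m) ≤ 2 ^ (m * L) * q ^ m := by
    rw [Finset.sum_mul]
    calc _ ≤ ∑ _F ∈ bad, q ^ m := Finset.sum_le_sum h2
      _ = bad.card * q ^ m := by simp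
      _ ≤ 𝒞.card * q ^ m := Nat.mul_le_mul_right _ (Finset.card_le_card (Finset.filter_subset _ _))
      _ ≤ _ := Nat.mul_le_mul_right _ hcard
  have h4 : q ^ m * 2 ^ ((L + 1) * m) ≤ 2 ^ (m * L) * q ^ m :=
    (Nat.mul_le_mul_right _ h1).trans h3
  have h5 : 2 ^ ((L + 1) * m) = 2 ^ (m * L) * 2 ^ m := by
    rw [← pow_add]; congr 1; ring
  rw [h5] at h4
  have hqm : 0 < q ^ m := pow_pos hq0 m
  have hL : 0 < 2 ^ (m * L) := by positivity
  have h6 : (2 ^ (m * L) * q ^ m) * 2 ^ m ≤ (2 ^ (m * L) * q ^ m) * 1 := by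
    calc (2 ^ (m * L) * q ^ m) * 2 ^ m = q ^ m * (2 ^ (m * L) * 2 ^ m) := by ring
      _ ≤ 2 ^ (m * L) * q ^ m := h4
      _ = _ := by ring
  have h7 : 2 ^ m ≤ 1 := Nat.le_of_mul_le_mul_left h6 (Nat.mul_pos hL hqm)
  have h8 : 2 ^ 1 ≤ 2 ^ m := Nat.pow_le_pow_right (by norm_num) hm0
  omega

/-- Most random sets `ζ = 0` hit every set of the family. -/
theorem good_count (e : X ≃ R × Q) (𝒞 : Finset (X → Bool)) (L B : ℕ) (hB : 1 ≤ B)
    (hcard : 𝒞.card ≤ 2 ^ (Fintype.card R * L)) (u : R → Q)
    (hu : ∀ F ∈ 𝒞, (∀ i, F (e.symm (i, u i)) = true) →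
      Fintype.card R * (B * (L + 1) + 1) ≤ (Finset.univ.filter (fun x => F x = true)).card) :
    B ^ Fintype.card X ≤ 2 * (Finset.univ.filter (fun ζ : X → Fin B =>
      ∀ F ∈ 𝒞, (∀ i, F (e.symm (i, u i)) = true) →
        ∃ x, F x = true ∧ (e x).2 ≠ u (e x).1 ∧ (ζ x).val = 0)).card := by
  classical
  set m := Fintype.card R with hm
  have hm0 : 0 < m := Fintype.card_pos
  set N := Fintype.card X with hN
  set good := (Finset.univ.filter (fun ζ : X → Fin B =>
      ∀ F ∈ 𝒞, (∀ i, F (e.symm (i, u i)) = true) →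
        ∃ x, F x = true ∧ (e x).2 ≠ u (e x).1 ∧ (ζ x).val = 0)) with hgood
  set 𝒞' := 𝒞.filter (fun F => ∀ i, F (e.symm (i, u i)) = true) with h𝒞'
  have hbad : goodᶜ ⊆ 𝒞'.biUnion (fun F => Finset.univ.filter (fun ζ : X → Fin B =>
      ∀ x, F x = true → (e x).2 ≠ u (e x).1 → (ζ x).val ≠ 0)) := by
    intro ζ hζ
    simp only [hgood, mem_compl, mem_filter, mem_univ, true_and, not_forall] at hζ
    obtain ⟨F, hF, hF', h⟩ := hζ
    push Not at h
    simp only [mem_biUnion, mem_filter, mem_univ, true_and, h𝒞']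
    exact ⟨F, ⟨hF, hF'⟩, h⟩
  have hone : ∀ F ∈ 𝒞', (Finset.univ.filter (fun ζ : X → Fin B =>
      ∀ x, F x = true → (e x).2 ≠ u (e x).1 → (ζ x).val ≠ 0)).card * 2 ^ (m * (L + 1)) ≤
      B ^ N := by
    intro F hF
    simp only [h𝒞', mem_filter] at hF
    have hsz := hu F hF.1 hF.2
    set A := Finset.univ.filter (fun x => F x = true ∧ (e x).2 ≠ u (e x).1) with hA
    have hAcard : m * (B * (L + 1)) ≤ A.card := by
      have hsub : Finset.univ.filter (fun x => F x = true) ⊆
          A ∪ (Finset.univ : Finset R).image (fun i => e.symm (i, u i)) := by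
        intro x hx
        simp only [mem_filter, mem_univ, true_and] at hx
        simp only [mem_union, hA, mem_filter, mem_univ, true_and, mem_image]
        by_cases h : (e x).2 = u (e x).1
        · right
          refine ⟨(e x).1, ?_⟩
          rw [← h]
          simp
        · exact Or.inl ⟨hx, h⟩
      have h1 := Finset.card_le_card hsub
      have h2 := Finset.card_union_le A
        ((Finset.univ : Finset R).image (fun i => e.symm (i, u i)))
      have h3 : ((Finset.univ : Finset R).image (fun i => e.symm (i, u i))).card ≤ m :=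
        Finset.card_image_le
      have h4 : m * (B * (L + 1) + 1) = m * (B * (L + 1)) + m := by ring
      omega
    obtain ⟨A', hA', hA'c⟩ := Finset.exists_subset_card_eq hAcard
    have hsub2 : (Finset.univ.filter (fun ζ : X → Fin B =>
        ∀ x, F x = true → (e x).2 ≠ u (e x).1 → (ζ x).val ≠ 0)) ⊆
        (Finset.univ.filter (fun ζ : X → Fin B => ∀ x ∈ A', ζ x ∈
          (Finset.univ.filter (fun b : Fin B => b.val ≠ 0)))) := by
      intro ζ hζ
      simp only [mem_filter, mem_univ, true_and] at hζ ⊢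
      intro x hx
      have := hA' hx
      simp only [hA, mem_filter, mem_univ, true_and] at this
      exact hζ x this.1 this.2
    have hnz : (Finset.univ.filter (fun b : Fin B => b.val ≠ 0)).card ≤ B - 1 := by
      have hss : (Finset.univ.filter (fun b : Fin B => b.val ≠ 0)) ⊆
          (Finset.univ.erase (⟨0, by omega⟩ : Fin B)) := by
        intro b hb
        simp only [mem_filter, mem_univ, true_and] at hb
        simp only [mem_erase, mem_univ, and_true]
        intro h
        exact hb (by rw [h])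
      have := Finset.card_le_card hss
      rw [Finset.card_erase_of_mem (Finset.mem_univ _)] at this
      simpa using this
    have hle := Finset.card_le_card hsub2
    rw [card_pi_mem, hA'c] at hle
    simp only [Fintype.card_fin] at hle
    rw [← hN] at hle
    have hA'N : m * (B * (L + 1)) ≤ N := by
      rw [← hA'c, hN]; exact Finset.card_le_univ _
    calc _ ≤ ((Finset.univ.filter (fun b : Fin B => b.val ≠ 0)).card ^ (m * (B * (L + 1))) *
          B ^ (N - m * (B * (L + 1)))) * 2 ^ (m * (L + 1)) := Nat.mul_le_mul_right _ hle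
      _ ≤ ((B - 1) ^ (m * (B * (L + 1))) *
          B ^ (N - m * (B * (L + 1)))) * 2 ^ (m * (L + 1)) := by
          gcongr
      _ = (((B - 1) ^ B * 2) ^ (m * (L + 1))) * B ^ (N - m * (B * (L + 1))) := by
          rw [mul_pow, ← pow_mul]
          have : m * (B * (L + 1)) = B * (m * (L + 1)) := by ring
          rw [this]; ring
      _ ≤ ((B ^ B) ^ (m * (L + 1))) * B ^ (N - m * (B * (L + 1))) := by
          gcongr
          exact bernoulli_nat B hB
      _ = B ^ N := by
          rw [← pow_mul, ← pow_add]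
          congr 1
          have : m * (B * (L + 1)) = B * (m * (L + 1)) := by ring
          omega
  have hsum : goodᶜ.card * 2 ^ (m * (L + 1)) ≤ 2 ^ (m * L) * B ^ N := by
    calc goodᶜ.card * 2 ^ (m * (L + 1)) ≤ (∑ F ∈ 𝒞', (Finset.univ.filter (fun ζ : X → Fin B =>
      ∀ x, F x = true → (e x).2 ≠ u (e x).1 → (ζ x).val ≠ 0)).card) * 2 ^ (m * (L + 1)) :=
          Nat.mul_le_mul_right _ ((Finset.card_le_card hbad).trans Finset.card_biUnion_le)
      _ = ∑ F ∈ 𝒞', (Finset.univ.filter (fun ζ : X → Fin B =>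
      ∀ x, F x = true → (e x).2 ≠ u (e x).1 → (ζ x).val ≠ 0)).card * 2 ^ (m * (L + 1)) := by
          rw [Finset.sum_mul]
      _ ≤ ∑ _F ∈ 𝒞', B ^ N := Finset.sum_le_sum hone
      _ = 𝒞'.card * B ^ N := by simp
      _ ≤ 𝒞.card * B ^ N :=
          Nat.mul_le_mul_right _ (Finset.card_le_card (Finset.filter_subset _ _))
      _ ≤ _ := Nat.mul_le_mul_right _ hcard
  have h5 : 2 ^ (m * (L + 1)) = 2 ^ (m * L) * 2 ^ m := by
    rw [← pow_add]; congr 1
  have h6 : goodᶜ.card * 2 ≤ B ^ N := by
    have h8 : 2 ^ 1 ≤ 2 ^ m := Nat.pow_le_pow_right (by norm_num) hm0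
    have h9 : 2 ^ (m * L) * (goodᶜ.card * 2) ≤ 2 ^ (m * L) * B ^ N := by
      calc 2 ^ (m * L) * (goodᶜ.card * 2) ≤ 2 ^ (m * L) * (goodᶜ.card * 2 ^ m) := by
            gcongr
            simpa using h8
        _ = goodᶜ.card * 2 ^ (m * (L + 1)) := by rw [h5]; ring
        _ ≤ _ := hsum
    exact Nat.le_of_mul_le_mul_left h9 (by positivity)
  have h7 : good.card + goodᶜ.card = B ^ N := by
    rw [Finset.card_add_card_compl]
    simp [hN]
  omega

/-- **The abstract lower bound** for monotone circuits deciding whether a partial table is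
consistent with a member of the family `𝒞`. -/
theorem abstract_bound (e : X ≃ R × Q) {Γ Kt : Type} [Fintype Γ] [Nonempty Γ] [DecidableEq Kt]
    (g : Γ → X → Kt) (K : ℕ) (𝒞 : Finset (X → Bool)) (L M : ℕ) (hM : 2 ≤ M) (hKM : 4 * M ≤ K)
    (hInd : ∀ (u : R → Q) (S : Finset X), S.card ≤ M → (∀ x ∈ S, (e x).2 ≠ u (e x).1) →
      (Finset.univ.filter (fun γ : Γ => ∀ x ∈ S,
        g γ x = g γ (e.symm ((e x).1, u (e x).1)))).card * K ^ S.card ≤ Fintype.card Γ)
    (hmem : ∀ (u : R → Q) (γ : Γ),
      (fun x => decide (g γ x = g γ (e.symm ((e x).1, u (e x).1)))) ∈ 𝒞)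
    (hcard : 𝒞.card ≤ 2 ^ (Fintype.card R * L))
    (hQ : 2 ^ (L + 1) * (2 * M * (L + 1) + 1) ≤ Fintype.card Q)
    (D : MonoCircuit (X × Bool))
    (hD : ∀ T : X → Option Bool, D.eval (allowed T) = true ↔
      ∃ F ∈ 𝒞, ∀ x b, T x = some b → F x = b) :
    2 ^ M ≤ D.size := by
  classical
  obtain ⟨u, hu⟩ := exists_section e 𝒞 L hcard
  have hu' : ∀ F ∈ 𝒞, (∀ i, F (e.symm (i, u i)) = true) →
      Fintype.card R * (2 * M * (L + 1) + 1) ≤
        (Finset.univ.filter (fun x => F x = true)).card := by
    intro F hF hF'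
    have h1 := hu F hF hF'
    have h2 : Fintype.card R * (2 * M * (L + 1) + 1) * 2 ^ (L + 1) ≤
        (Finset.univ.filter (fun x => F x = true)).card * 2 ^ (L + 1) := by
      calc Fintype.card R * (2 * M * (L + 1) + 1) * 2 ^ (L + 1) =
          Fintype.card R * (2 ^ (L + 1) * (2 * M * (L + 1) + 1)) := by ring
        _ ≤ Fintype.card R * Fintype.card Q := Nat.mul_le_mul_left _ hQ
        _ ≤ _ := h1
    exact Nat.le_of_mul_le_mul_right h2 (by positivity)
  have hgood := good_count e 𝒞 L (2 * M) (by omega) hcard u hu'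
  set good := (Finset.univ.filter (fun ζ : X → Fin (2 * M) =>
      ∀ F ∈ 𝒞, (∀ i, F (e.symm (i, u i)) = true) →
        ∃ x, F x = true ∧ (e x).2 ≠ u (e x).1 ∧ (ζ x).val = 0)) with hgooddef
  -- the graph of `u`
  set onG : X → Prop := fun x => (e x).2 = u (e x).1 with honG
  -- the table of a set `Y`
  set T : (X → Bool) → X → Option Bool := fun Y x =>
    if onG x then some true else if Y x then none else some false with hT
  set σ : X × Bool → Bool ⊕ X := fun z =>
    if z.2 then (if onG z.1 then Sum.inl true else Sum.inr z.1)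
    else (if onG z.1 then Sum.inl false else Sum.inl true) with hσ
  have hsub : ∀ Y : X → Bool, substVal σ Y = allowed (T Y) := by
    intro Y
    funext ⟨x, b⟩
    by_cases hx : onG x
    · cases b
      · simp [substVal, hσ, allowed, hT, hx]
      · simp [substVal, hσ, allowed, hT, hx]
    · cases b
      · cases hY : Y x
        · simp [substVal, hσ, allowed, hT, hx, hY]
        · simp [substVal, hσ, allowed, hT, hx, hY]
      · cases hY : Y x
        · simp [substVal, hσ, allowed, hT, hx, hY]
        · simp [substVal, hσ, allowed, hT, hx, hY]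
  have hD' : ∀ Y : X → Bool, (D.subst σ).eval Y = true ↔
      ∃ F ∈ 𝒞, (∀ x, onG x → F x = true) ∧ ∀ x, ¬ onG x → Y x = false → F x = false := by
    intro Y
    rw [MonoCircuit.subst_eval, hsub, hD]
    constructor
    · rintro ⟨F, hF, h⟩
      refine ⟨F, hF, ?_, ?_⟩
      · intro x hx
        exact h x true (by simp [hT, hx])
      · intro x hx hY
        exact h x false (by simp [hT, hx, hY])
    · rintro ⟨F, hF, h1, h2⟩
      refine ⟨F, hF, ?_⟩
      intro x b hb
      by_cases hx : onG x
      · simp only [hT, hx, if_true, Option.some.injEq] at hb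
        rw [← hb]; exact h1 x hx
      · cases hY : Y x
        · simp only [hT, hx, hY, if_false, Bool.false_eq_true, Option.some.injEq] at hb
          rw [← hb]; exact h2 x hx hY
        · simp [hT, hx, hY] at hb
  have honsymm : ∀ i, onG (e.symm (i, u i)) := by
    intro i; simp [honG]
  obtain ⟨Cl, Dl, c1, c2, c3, c4, c5⟩ := criterion (r := M) (s := M + 1) hM (by omega)
    (D.subst σ)
  have hsize : (D.subst σ).size = D.size := rfl
  rw [hsize] at c3 c4
  set t := D.size with ht
  simp only [Nat.add_sub_cancel] at c4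
  rcases c5 with c5 | ⟨I, hI, c5⟩
  · -- first alternative: contradicts the negative instances
    have hsubset : good ⊆ Cl.biUnion (fun Qc => Finset.univ.filter
        (fun ζ : X → Fin (2 * M) => ∀ x ∈ Qc, ζ x ∈
          ({⟨0, by omega⟩} : Finset (Fin (2 * M))))) := by
      intro ζ hζ
      simp only [hgooddef, mem_filter, mem_univ, true_and] at hζ
      set Y : X → Bool := fun x => decide (onG x) || decide ((ζ x).val ≠ 0) with hY
      have hneg : ¬ ((D.subst σ).eval Y = true) := by
        rw [hD']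
        rintro ⟨F, hF, h1, h2⟩
        obtain ⟨x, hx1, hx2, hx3⟩ := hζ F hF (fun i => h1 _ (honsymm i))
        have := h2 x hx2 (by simp [hY, honG, hx2, hx3])
        rw [this] at hx1
        exact Bool.noConfusion hx1
      have hnc : ¬ CNF Cl Y := fun h => hneg (c5 Y h)
      unfold CNF at hnc
      push Not at hnc
      obtain ⟨Qc, hQc, hall⟩ := hnc
      simp only [mem_biUnion, mem_filter, mem_univ, true_and, mem_singleton]
      refine ⟨Qc, hQc, ?_⟩
      intro x hx
      have h := hall x hx
      simp only [hY, ne_eq, Bool.or_eq_true, decide_eq_true_eq, not_or, not_not] at h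
      exact Fin.ext h.2
    set N := Fintype.card X with hN
    have h1 : good.card ≤ Cl.card * (2 * M) ^ (N - (M + 1)) := by
      calc good.card ≤ _ := Finset.card_le_card hsubset
        _ ≤ ∑ Qc ∈ Cl, _ := Finset.card_biUnion_le
        _ = ∑ Qc ∈ Cl, (2 * M) ^ (N - (M + 1)) := by
            refine Finset.sum_congr rfl (fun Qc hQc => ?_)
            rw [card_pi_mem, c1 Qc hQc]
            simp [hN]
        _ = _ := by simp
    have hClne : Cl.Nonempty := by
      rw [Finset.nonempty_iff_ne_empty]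
      intro h0
      rw [h0] at h1
      simp only [Finset.card_empty, zero_mul, Nat.le_zero] at h1
      rw [h1] at hgood
      have : 0 < (2 * M) ^ N := by positivity
      omega
    have hNM : M + 1 ≤ N := by
      obtain ⟨Qc, hQc⟩ := hClne
      rw [← c1 Qc hQc, hN]
      exact Finset.card_le_univ _
    have h2 : (2 * M) ^ (M + 1) * (2 * M) ^ (N - (M + 1)) ≤
        (2 * t * (M - 1) ^ (M + 1)) * (2 * M) ^ (N - (M + 1)) := by
      calc (2 * M) ^ (M + 1) * (2 * M) ^ (N - (M + 1)) = (2 * M) ^ N := by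
            rw [← pow_add]; congr 1; omega
        _ ≤ 2 * good.card := hgood
        _ ≤ 2 * (Cl.card * (2 * M) ^ (N - (M + 1))) := Nat.mul_le_mul_left _ h1
        _ ≤ 2 * ((t * (M - 1) ^ (M + 1)) * (2 * M) ^ (N - (M + 1))) := by gcongr
        _ = _ := by ring
    have h3 : (2 * M) ^ (M + 1) ≤ 2 * t * (M - 1) ^ (M + 1) :=
      Nat.le_of_mul_le_mul_right h2 (by positivity)
    have h4 : 2 ^ (M + 1) * M ^ (M + 1) ≤ 2 * t * M ^ (M + 1) := by
      calc 2 ^ (M + 1) * M ^ (M + 1) = (2 * M) ^ (M + 1) := by rw [mul_pow]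
        _ ≤ 2 * t * (M - 1) ^ (M + 1) := h3
        _ ≤ 2 * t * M ^ (M + 1) := by gcongr; omega
    have h5 : 2 ^ (M + 1) ≤ 2 * t := Nat.le_of_mul_le_mul_right h4 (by positivity)
    have h6 : 2 ^ (M + 1) = 2 * 2 ^ M := by rw [pow_succ]; ring
    omega
  · -- second alternative: contradicts the positive instances
    set φ : X → X := fun x => e.symm ((e x).1, u (e x).1) with hφ
    have hcnt : ∀ S : Finset X, S.card ≤ M →
        (Finset.univ.filter (fun γ : Γ => ∀ x ∈ S, ¬ onG x ∧ g γ x = g γ (φ x))).card *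
          K ^ S.card ≤ Fintype.card Γ := by
      intro S hS
      by_cases hall : ∀ x ∈ S, (e x).2 ≠ u (e x).1
      · have := hInd u S hS hall
        refine le_trans (Nat.mul_le_mul_right _ (Finset.card_le_card ?_)) this
        intro γ hγ
        simp only [mem_filter, mem_univ, true_and] at hγ ⊢
        exact fun x hx => (hγ x hx).2
      · push Not at hall
        obtain ⟨x, hx, hx'⟩ := hall
        have : (Finset.univ.filter (fun γ : Γ => ∀ x ∈ S, ¬ onG x ∧ g γ x = g γ (φ x))) = ∅ := by
          ext γ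
          simp only [mem_filter, mem_univ, true_and, notMem_empty, iff_false]
          intro h
          exact (h x hx).1 hx'
        rw [this]; simp
    have hcover : (Finset.univ : Finset Γ) ⊆
        (Dl.biUnion (fun S => Finset.univ.filter
          (fun γ : Γ => ∀ x ∈ S, ¬ onG x ∧ g γ x = g γ (φ x)))) ∪
        (I.biUnion (fun i => Finset.univ.filter
          (fun γ : Γ => ∀ x ∈ ({i} : Finset X), ¬ onG x ∧ g γ x = g γ (φ x)))) := by
      intro γ _
      set Y : X → Bool := fun x => decide (¬ onG x) && decide (g γ x = g γ (φ x)) with hY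
      have hpos : (D.subst σ).eval Y = true := by
        rw [hD']
        refine ⟨_, hmem u γ, ?_, ?_⟩
        · intro x hx
          simp only [honG] at hx
          have : e.symm ((e x).1, u (e x).1) = x := by
            rw [← hx]; simp
          simp [this]
        · intro x hx hYx
          simp only [hY, hx, not_false_eq_true, decide_true, Bool.true_and] at hYx
          exact hYx
      rcases c5 Y hpos with h | ⟨i, hi, h⟩
      · obtain ⟨S, hS, h⟩ := h
        rw [mem_union]
        left
        simp only [mem_biUnion, mem_filter, mem_univ, true_and]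
        refine ⟨S, hS, ?_⟩
        intro x hx
        have := h x hx
        simpa [hY] using this
      · rw [mem_union]
        right
        simp only [mem_biUnion, mem_filter, mem_univ, true_and, mem_singleton, forall_eq]
        refine ⟨i, hi, ?_⟩
        simpa [hY] using h
    have hK : 0 < K := by omega
    set G := Fintype.card Γ with hG
    have hG0 : 0 < G := Fintype.card_pos
    have h1 : G ≤ (∑ S ∈ Dl, (Finset.univ.filter
          (fun γ : Γ => ∀ x ∈ S, ¬ onG x ∧ g γ x = g γ (φ x))).card) +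
        ∑ i ∈ I, (Finset.univ.filter
          (fun γ : Γ => ∀ x ∈ ({i} : Finset X), ¬ onG x ∧ g γ x = g γ (φ x))).card := by
      calc G = (Finset.univ : Finset Γ).card := by simp [hG]
        _ ≤ _ := Finset.card_le_card hcover
        _ ≤ _ := Finset.card_union_le _ _
        _ ≤ _ := Nat.add_le_add Finset.card_biUnion_le Finset.card_biUnion_le
    have h2 : (∑ S ∈ Dl, (Finset.univ.filter
          (fun γ : Γ => ∀ x ∈ S, ¬ onG x ∧ g γ x = g γ (φ x))).card) * K ^ M ≤
        t * M ^ M * G := by
      rw [Finset.sum_mul]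
      calc _ ≤ ∑ _S ∈ Dl, G := by
            refine Finset.sum_le_sum (fun S hS => ?_)
            have h := hcnt S (c2 S hS).le
            rw [c2 S hS] at h
            exact h
        _ = Dl.card * G := by simp
        _ ≤ _ := Nat.mul_le_mul_right _ c4
    have h3 : (∑ i ∈ I, (Finset.univ.filter
          (fun γ : Γ => ∀ x ∈ ({i} : Finset X), ¬ onG x ∧ g γ x = g γ (φ x))).card) * K ≤
        M * G := by
      rw [Finset.sum_mul]
      calc _ ≤ ∑ _i ∈ I, G := by
            refine Finset.sum_le_sum (fun i _ => ?_)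
            have h := hcnt {i} (by simp; omega)
            simpa using h
        _ = I.card * G := by simp
        _ ≤ _ := Nat.mul_le_mul_right _ (by omega)
    set A := (∑ S ∈ Dl, (Finset.univ.filter
          (fun γ : Γ => ∀ x ∈ S, ¬ onG x ∧ g γ x = g γ (φ x))).card) with hA
    set A' := (∑ i ∈ I, (Finset.univ.filter
          (fun γ : Γ => ∀ x ∈ ({i} : Finset X), ¬ onG x ∧ g γ x = g γ (φ x))).card) with hA'
    have h4 : A' * 4 ≤ G := by
      have : M * (A' * 4) ≤ M * G := by
        calc M * (A' * 4) = A' * (4 * M) := by ring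
          _ ≤ A' * K := Nat.mul_le_mul_left _ hKM
          _ ≤ M * G := h3
      exact Nat.le_of_mul_le_mul_left this (by omega)
    have h5 : A * 4 ^ M ≤ t * G := by
      have : M ^ M * (A * 4 ^ M) ≤ M ^ M * (t * G) := by
        calc M ^ M * (A * 4 ^ M) = A * (4 * M) ^ M := by rw [mul_pow]; ring
          _ ≤ A * K ^ M := by gcongr
          _ ≤ t * M ^ M * G := h2
          _ = _ := by ring
      exact Nat.le_of_mul_le_mul_left this (by positivity)
    have h6 : G * 4 ^ M ≤ t * G + A' * 4 ^ M := by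
      calc G * 4 ^ M ≤ (A + A') * 4 ^ M := Nat.mul_le_mul_right _ h1
        _ = A * 4 ^ M + A' * 4 ^ M := by ring
        _ ≤ _ := by omega
    have h7 : 4 ^ M = 4 * 4 ^ (M - 1) := by
      rw [← pow_succ']; congr 1; omega
    have h8 : A' * 4 ^ M ≤ G * 4 ^ (M - 1) := by
      rw [h7]
      calc A' * (4 * 4 ^ (M - 1)) = A' * 4 * 4 ^ (M - 1) := by ring
        _ ≤ _ := Nat.mul_le_mul_right _ h4
    have h9 : G * (3 * 4 ^ (M - 1)) ≤ G * t := by
      have : G * 4 ^ M = G * (3 * 4 ^ (M - 1)) + G * 4 ^ (M - 1) := by rw [h7]; ring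
      have h10 : t * G = G * t := mul_comm _ _
      omega
    have h10 : 3 * 4 ^ (M - 1) ≤ t := Nat.le_of_mul_le_mul_left h9 hG0
    have h11 : (2 : ℕ) ^ M ≤ 3 * 4 ^ (M - 1) := by
      have e1 : (2 : ℕ) ^ M = 2 * 2 ^ (M - 1) := by
        rw [← pow_succ']; congr 1; omega
      have e2 : (2 : ℕ) ^ (M - 1) ≤ 4 ^ (M - 1) := Nat.pow_le_pow_left (by norm_num) _
      omega
    omega

end Abs

end Pool.Agent.H589R2
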