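import Pool.Agent.H589R2.AbsBound
import Pool.Agent.H589R2.RMFam

/-!
# Assembling the independence of the Reed-Muller family with the abstract bound
-/

namespace Pool.Agent.H589R2

open Finset

/-- Splitting the cube `{0,1}^n` into the first `α` and the last `β` coordinates. -/
theorem exists_split (n α β : ℕ) (h : n = α + β) :
    ∃ e : (Fin n → Bool) ≃ (Fin α → Bool) × (Fin β → Bool),
      ∀ x y, (∀ j < α, co n j x = co n j y) → (e x).1 = (e y).1 := by
  subst h
  refine ⟨(Fin.appendEquiv α β).symm, ?_⟩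
  intro x y hxy
  funext i
  have h1 := hxy i.1 i.2
  have h2 : i.1 < α + β := by omega
  simp only [co, h2, dif_pos] at h1
  exact h1

theorem lowerBound (n α β κ L : ℕ) (hαβ : n = α + β) (hκ : 3 ≤ κ)
    (𝒞 : Finset ((Fin n → Bool) → Bool))
    (hmem : ∀ (g : Fin κ → (Fin n → Bool) → Bool) (c : Fin κ → (Fin n → Bool) → Bool),
      (∀ l, g l ∈ RM n n (κ - 1)) →
      (∀ l x y, (∀ j < α, co n j x = co n j y) → c l x = c l y) →
      (fun x => decide ((fun l => g l x) = (fun l => c l x))) ∈ 𝒞)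
    (hcard : 𝒞.card ≤ 2 ^ (2 ^ α * L))
    (hQ : 2 ^ (L + 1) * (2 * 2 ^ (κ - 2) * (L + 1) + 1) ≤ 2 ^ β)
    (D : MonoCircuit ((Fin n → Bool) × Bool))
    (hD : ∀ T : (Fin n → Bool) → Option Bool, D.eval (allowed T) = true ↔
      ∃ F ∈ 𝒞, ∀ x b, T x = some b → F x = b) :
    2 ^ 2 ^ (κ - 2) ≤ D.size := by
  obtain ⟨e, he⟩ := exists_split n α β hαβ
  set P : Finset ((Fin n → Bool) → Bool) := (Set.toFinite (RM n n (κ - 1))).toFinset with hP
  have hPne : Nonempty ↥P := ⟨⟨fun _ => false, by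
    rw [hP, Set.Finite.mem_toFinset]; exact RM_const n n _ false⟩⟩
  refine abstract_bound e (Γ := Fin κ → ↥P) (fun γ x => fun l => (γ l).1 x) (2 ^ κ) 𝒞 L
    (2 ^ (κ - 2)) ?_ ?_ ?_ ?_ ?_ ?_ D hD
  · calc 2 = 2 ^ 1 := by norm_num
      _ ≤ 2 ^ (κ - 2) := Nat.pow_le_pow_right (by norm_num) (by omega)
  · have : 2 ^ κ = 4 * 2 ^ (κ - 2) := by
      rw [show (4 : ℕ) = 2 ^ 2 by norm_num, ← pow_add]
      congr 1; omega
    omega
  · intro u S hS hSu
    set φ : (Fin n → Bool) → (Fin n → Bool) := fun x => e.symm ((e x).1, u (e x).1) with hφ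
    have hxor : ∀ f ∈ P, ∀ g ∈ P, (fun x => xor (f x) (g x)) ∈ P := by
      intro f hf g hg
      rw [hP, Set.Finite.mem_toFinset] at hf hg ⊢
      exact RM_xor n n _ f g hf hg
    have hne : ∀ x ∈ S, ∀ y ∈ S, φ x ≠ y := by
      intro x _ y hy hxy
      refine hSu y hy ?_
      rw [← hxy]
      simp [hφ]
    have hint : ∀ τ : (Fin n → Bool) → Bool, ∃ f ∈ P, ∀ x ∈ S ∪ S.image φ, f x = τ x := by
      intro τ
      obtain ⟨f, hf, hf'⟩ := RM_interp_all n (κ - 1) (S ∪ S.image φ) (by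
        have h1 := Finset.card_union_le S (S.image φ)
        have h2 : (S.image φ).card ≤ S.card := Finset.card_image_le
        have h3 : 2 ^ (κ - 1) = 2 * 2 ^ (κ - 2) := by
          rw [← pow_succ']; congr 1; omega
        omega) τ
      exact ⟨f, by rw [hP, Set.Finite.mem_toFinset]; exact hf, hf'⟩
    have hpow := pow_count P κ S φ (lin_count P hxor S φ hne hint)
    convert hpow
  · intro u γ
    refine hmem (fun l => (γ l).1) (fun l x => (γ l).1 (e.symm ((e x).1, u (e x).1))) ?_ ?_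
    · intro l
      exact (Set.Finite.mem_toFinset _).1 (γ l).2
    · intro l x y hxy
      show (γ l).1 (e.symm ((e x).1, u (e x).1)) = (γ l).1 (e.symm ((e y).1, u (e y).1))
      rw [he x y hxy]
  · simpa using hcard
  · simpa using hQ

end Pool.Agent.H589R2
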