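import Mathlib

/-!
# Definitions: monotone circuits, AND/OR circuits with free negations, the monotone encoding
-/

namespace Pool.Agent.H589R2

/-! ## Monotone circuits over a set of variables -/

/-- An operand of a gate of a monotone circuit with variable set `V`, when `s` gates have already
been listed: a constant, a variable, or the value of one of the `s` earlier gates. -/
inductive MOp (V : Type) (s : ℕ) : Type
  | const : Bool → MOp V s
  | var : V → MOp V s
  | gate : Fin s → MOp V s

/-- A list of `s` monotone gates.  Each new gate is an OR gate (`isOr = true`) or an AND gate
(`isOr = false`) applied to two operands. -/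
inductive MonoGates (V : Type) : ℕ → Type
  | nil : MonoGates V 0
  | snoc {s : ℕ} (p : MonoGates V s) (isOr : Bool) (a b : MOp V s) : MonoGates V (s + 1)

/-- The value of an operand, given the values `x` of the variables and `w` of earlier gates. -/
def MOp.val {V : Type} {s : ℕ} (x : V → Bool) (w : Fin s → Bool) : MOp V s → Bool
  | .const c => c
  | .var v => x v
  | .gate j => w j

/-- The values of the gates of a monotone circuit on an assignment `x` of the variables. -/
def MonoGates.val {V : Type} : {s : ℕ} → MonoGates V s → (V → Bool) → (Fin s → Bool)
  | _, .nil, _ => fun j => j.elim0
  | _, .snoc p isOr a b, x =>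
      Fin.snoc (p.val x)
        (if isOr then a.val x (p.val x) || b.val x (p.val x)
          else a.val x (p.val x) && b.val x (p.val x))

/-- A monotone Boolean circuit with variable set `V`: a list of AND/OR gates and an output. -/
structure MonoCircuit (V : Type) where
  /-- the number of AND and OR gates -/
  size : ℕ
  /-- the gates -/
  gates : MonoGates V size
  /-- the output operand -/
  out : MOp V size

/-- The Boolean function computed by a monotone circuit. -/
def MonoCircuit.eval {V : Type} (C : MonoCircuit V) (x : V → Bool) : Bool :=
  C.out.val x (C.gates.val x)

/-- The monotone encoding of a partial table `T` (`none` is the symbol `*`): the bit `(x, b)`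
says that the value `b` is allowed at `x`, i.e. `T x` is `b` or `*`. -/
def allowed {X : Type} (T : X → Option Bool) : X × Bool → Bool :=
  fun z => decide (T z.1 ≠ some (!z.2))

/-! ## Circuits with AND/OR gates of fan-in two and free negations, without constants -/

/-- A literal: an input variable or an earlier gate, together with a flag saying whether it is
negated (NOT gates are free). -/
abbrev Lit (n s : ℕ) : Type := (Fin n ⊕ Fin s) × Bool

/-- A list of `s` gates on `n` inputs: every gate is an OR (`isOr = true`) or an AND
(`isOr = false`) of two literals. -/
inductive Gates (n : ℕ) : ℕ → Type
  | nil : Gates n 0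
  | snoc {s : ℕ} (p : Gates n s) (isOr : Bool) (a b : Lit n s) : Gates n (s + 1)

/-- The value of a literal, given the input `x` and the values `w` of the gates. -/
def litVal {n s : ℕ} (x : Fin n → Bool) (w : Fin s → Bool) (l : Lit n s) : Bool :=
  xor l.2 (Sum.elim x w l.1)

/-- The values of all gates on input `x`. -/
def Gates.val {n : ℕ} : {s : ℕ} → Gates n s → (Fin n → Bool) → (Fin s → Bool)
  | _, .nil, _ => fun j => j.elim0
  | _, .snoc p isOr a b, x =>
      Fin.snoc (p.val x)
        (if isOr then litVal x (p.val x) a || litVal x (p.val x) b
          else litVal x (p.val x) a && litVal x (p.val x) b)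

/-- A circuit on `n` inputs with fan-in-two AND and OR gates, free negations and no constants;
its size is the number of AND/OR gates. -/
structure Circuit (n : ℕ) where
  /-- the number of AND/OR gates -/
  size : ℕ
  /-- the gates -/
  gates : Gates n size
  /-- the output -/
  out : Lit n size

/-- The function computed by a circuit. -/
def Circuit.eval {n : ℕ} (C : Circuit n) (x : Fin n → Bool) : Bool :=
  litVal x (C.gates.val x) C.out

/-- Partial MCSP: some circuit with at most `s` AND/OR gates (fan-in two, free negations, no
constants) is consistent with the partial truth table `T` (`none` is the symbol `*`). -/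
def PartialMCSP (n s : ℕ) (T : (Fin n → Bool) → Option Bool) : Prop :=
  ∃ C : Circuit n, C.size ≤ s ∧ ∀ x b, T x = some b → C.eval x = b

end Pool.Agent.H589R2
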