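import Mathlib

/-!
# Definitions: branching programs and Partial MBPSP
-/

namespace Pool.Agent.H589R2

/-- A deterministic branching program on the variables `x_0, …, x_{n-1}`.  Its non-sink nodes are
`0, …, inner - 1`, listed in a topological order (`topo`); node `0` is the source.  The node `v`
carries the variable `var v`, and its outgoing edge labelled `b` leads to `next v b`, which is
either a non-sink node (`Sum.inl w`) or the sink labelled `c` (`Sum.inr c`).  Every node other
than the source has an incoming edge (`reach` for the non-sink nodes, `sinks` for the sinks), so
the source is the only source of the directed acyclic graph. -/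
structure BP (n : ℕ) where
  /-- the number of non-sink nodes -/
  inner : ℕ
  /-- the variable carried by a non-sink node -/
  var : Fin inner → Fin n
  /-- the end of the edge labelled `b` leaving `v` -/
  next : Fin inner → Bool → Fin inner ⊕ Bool
  /-- the nodes are topologically ordered, so that the graph is acyclic -/
  topo : ∀ v b w, next v b = Sum.inl w → v < w
  /-- there is a source -/
  pos : 0 < inner
  /-- every non-sink node other than the source has an incoming edge -/
  reach : ∀ w : Fin inner, w.val ≠ 0 → ∃ v b, next v b = Sum.inl w
  /-- both sinks have an incoming edge -/
  sinks : ∀ c : Bool, ∃ v b, next v b = Sum.inr c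

/-- The size of a branching program: the number of its nodes, the two sinks included. -/
def BP.size {n : ℕ} (B : BP n) : ℕ := B.inner + 2

/-- One step of the computation on input `x`; sinks are never left. -/
def BP.step {n : ℕ} (B : BP n) (x : Fin n → Bool) : Fin B.inner ⊕ Bool → Fin B.inner ⊕ Bool
  | .inl v => B.next v (x (B.var v))
  | .inr c => .inr c

/-- The output on input `x`: start at the source and make `inner` steps, which always suffices to
reach a sink because every step increases the index of the node; output the label of the sink. -/
def BP.eval {n : ℕ} (B : BP n) (x : Fin n → Bool) : Bool :=
  match (B.step x)^[B.inner] (.inl ⟨0, B.pos⟩) with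
  | .inr c => c
  | .inl _ => false

/-- Partial MBPSP: some branching program with at most `s` nodes agrees with the partial truth
table `T` (`none` is the symbol `*`). -/
def PartialMBPSP (n s : ℕ) (T : (Fin n → Bool) → Option Bool) : Prop :=
  1 ≤ n ∧ ∃ B : BP n, B.size ≤ s ∧ ∀ x b, T x = some b → B.eval x = b

end Pool.Agent.H589R2
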