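import Pool.Agent.H589R2.Defs

/-!
# Monotone circuits and the CNF/DNF approximation criterion

Monotone circuits are straight-line programs over a set `V` of variables whose gates are
fan-in-two AND and OR gates; constants are allowed.
-/

namespace Pool.Agent.H589R2

section Crit

variable {V : Type}

/-- Truth of a CNF (a finite set of clauses, each a finite set of variables). -/
def CNF (F : Finset (Finset V)) (x : V → Bool) : Prop := ∀ Q ∈ F, ∃ i ∈ Q, x i = true

/-- Truth of a DNF (a finite set of terms, each a finite set of variables). -/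
def DNF (F : Finset (Finset V)) (x : V → Bool) : Prop := ∃ S ∈ F, ∀ i ∈ S, x i = true

theorem DNF_iff_not_CNF (F : Finset (Finset V)) (x : V → Bool) :
    DNF F x ↔ ¬ CNF F (fun i => !x i) := by
  unfold DNF CNF
  push Not
  simp

theorem CNF_iff_not_DNF (F : Finset (Finset V)) (x : V → Bool) :
    CNF F x ↔ ¬ DNF F (fun i => !x i) := by
  unfold DNF CNF
  push Not
  simp

/-- The switching step from a node `S₀` of the tree. -/
theorem switch_aux [DecidableEq V] (cnf : Finset (Finset V)) (s' r : ℕ)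
    (hcnf : ∀ Q ∈ cnf, Q.card ≤ s') :
    ∀ (j : ℕ) (S₀ : Finset V), S₀.card + j = r →
      ∃ dnf D : Finset (Finset V),
        (∀ S ∈ dnf, S.card < r) ∧ (∀ S ∈ D, S.card = r) ∧ D.card ≤ s' ^ j ∧
        (∀ x, DNF dnf x → CNF cnf x) ∧
        (∀ x : V → Bool, (∀ i ∈ S₀, x i = true) → CNF cnf x → DNF dnf x ∨ DNF D x) := by
  intro j
  induction j with
  | zero =>
    intro S₀ hS
    refine ⟨∅, {S₀}, by simp, by simpa using hS, by simp, ?_, ?_⟩
    · intro x hx
      obtain ⟨S, hS, _⟩ := hx
      simp at hS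
    · intro x hx _
      exact Or.inr ⟨S₀, by simp, hx⟩
  | succ j ih =>
    intro S₀ hS
    by_cases hall : ∀ Q ∈ cnf, ∃ i ∈ Q, i ∈ S₀
    · refine ⟨{S₀}, ∅, ?_, by simp, by simp, ?_, ?_⟩
      · intro S hS'
        simp only [Finset.mem_singleton] at hS'
        subst hS'
        omega
      · intro x hx Q hQ
        obtain ⟨S, hS', hx⟩ := hx
        simp only [Finset.mem_singleton] at hS'
        subst hS'
        obtain ⟨i, hi, hi'⟩ := hall Q hQ
        exact ⟨i, hi, hx i hi'⟩
      · intro x hx _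
        exact Or.inl ⟨S₀, by simp, hx⟩
    · push Not at hall
      obtain ⟨Q, hQ, hdisj⟩ := hall
      have key : ∀ i : V, ∃ dnf D : Finset (Finset V), i ∈ Q →
        (∀ S ∈ dnf, S.card < r) ∧ (∀ S ∈ D, S.card = r) ∧ D.card ≤ s' ^ j ∧
        (∀ x, DNF dnf x → CNF cnf x) ∧
        (∀ x : V → Bool, (∀ i' ∈ insert i S₀, x i' = true) → CNF cnf x →
          DNF dnf x ∨ DNF D x) := by
        intro i
        by_cases hi : i ∈ Q
        · have := ih (insert i S₀) (by
            rw [Finset.card_insert_of_notMem (hdisj i hi)]; omega)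
          obtain ⟨dnf, D, h⟩ := this
          exact ⟨dnf, D, fun _ => h⟩
        · exact ⟨∅, ∅, fun h => absurd h hi⟩
      choose fd fD hf using key
      refine ⟨Q.biUnion fd, Q.biUnion fD, ?_, ?_, ?_, ?_, ?_⟩
      · intro S hS'
        simp only [Finset.mem_biUnion] at hS'
        obtain ⟨i, hi, hS'⟩ := hS'
        exact (hf i hi).1 S hS'
      · intro S hS'
        simp only [Finset.mem_biUnion] at hS'
        obtain ⟨i, hi, hS'⟩ := hS'
        exact (hf i hi).2.1 S hS'
      · calc (Q.biUnion fD).card ≤ ∑ i ∈ Q, (fD i).card := Finset.card_biUnion_le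
          _ ≤ ∑ _i ∈ Q, s' ^ j := Finset.sum_le_sum (fun i hi => (hf i hi).2.2.1)
          _ = Q.card * s' ^ j := by simp
          _ ≤ s' * s' ^ j := Nat.mul_le_mul_right _ (hcnf Q hQ)
          _ = s' ^ (j + 1) := by ring
      · intro x hx
        obtain ⟨S, hS', hx⟩ := hx
        simp only [Finset.mem_biUnion] at hS'
        obtain ⟨i, hi, hS'⟩ := hS'
        exact (hf i hi).2.2.2.1 x ⟨S, hS', hx⟩
      · intro x hx hc
        obtain ⟨i, hi, hxi⟩ := hc Q hQ
        have := (hf i hi).2.2.2.2 x (by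
          intro i' hi'
          simp only [Finset.mem_insert] at hi'
          rcases hi' with h | h
          · subst h; exact hxi
          · exact hx i' h) hc
        rcases this with h | h
        · obtain ⟨S, hS', hx'⟩ := h
          exact Or.inl ⟨S, Finset.mem_biUnion.2 ⟨i, hi, hS'⟩, hx'⟩
        · obtain ⟨S, hS', hx'⟩ := h
          exact Or.inr ⟨S, Finset.mem_biUnion.2 ⟨i, hi, hS'⟩, hx'⟩

/-- Switching from a CNF with clauses of size at most `s'` to a DNF with terms of size less
than `r`. -/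
theorem switch_cnf [DecidableEq V] (cnf : Finset (Finset V)) (s' r : ℕ)
    (hcnf : ∀ Q ∈ cnf, Q.card ≤ s') :
      ∃ dnf D : Finset (Finset V),
        (∀ S ∈ dnf, S.card < r) ∧ (∀ S ∈ D, S.card = r) ∧ D.card ≤ s' ^ r ∧
        (∀ x, DNF dnf x → CNF cnf x) ∧
        (∀ x : V → Bool, CNF cnf x → DNF dnf x ∨ DNF D x) := by
  obtain ⟨dnf, D, h1, h2, h3, h4, h5⟩ := switch_aux cnf s' r hcnf r ∅ (by simp)
  exact ⟨dnf, D, h1, h2, h3, h4, fun x hx => h5 x (by simp) hx⟩

/-- Switching from a DNF with terms of size at most `r'` to a CNF with clauses of size less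
than `s`. -/
theorem switch_dnf [DecidableEq V] (dnf : Finset (Finset V)) (r' s : ℕ)
    (hdnf : ∀ Q ∈ dnf, Q.card ≤ r') :
      ∃ cnf C : Finset (Finset V),
        (∀ S ∈ cnf, S.card < s) ∧ (∀ S ∈ C, S.card = s) ∧ C.card ≤ r' ^ s ∧
        (∀ x, DNF dnf x → CNF cnf x) ∧
        (∀ x : V → Bool, CNF cnf x → CNF C x → DNF dnf x) := by
  obtain ⟨cnf, C, h1, h2, h3, h4, h5⟩ := switch_cnf dnf r' s hdnf
  refine ⟨cnf, C, h1, h2, h3, ?_, ?_⟩
  · intro x hx
    rw [DNF_iff_not_CNF] at hx
    rw [CNF_iff_not_DNF]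
    exact fun h => hx (h4 _ h)
  · intro x hx hx'
    rw [DNF_iff_not_CNF]
    rw [CNF_iff_not_DNF] at hx hx'
    intro h
    rcases h5 _ h with h | h
    · exact hx h
    · exact hx' h

theorem CNF_union [DecidableEq V] (F G : Finset (Finset V)) (x : V → Bool) :
    CNF (F ∪ G) x ↔ CNF F x ∧ CNF G x := by
  unfold CNF
  simp only [Finset.mem_union]
  constructor
  · intro h
    exact ⟨fun Q hQ => h Q (Or.inl hQ), fun Q hQ => h Q (Or.inr hQ)⟩
  · rintro ⟨h1, h2⟩ Q (hQ | hQ)
    · exact h1 Q hQ
    · exact h2 Q hQ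

theorem DNF_union [DecidableEq V] (F G : Finset (Finset V)) (x : V → Bool) :
    DNF (F ∪ G) x ↔ DNF F x ∨ DNF G x := by
  unfold DNF
  simp only [Finset.mem_union]
  constructor
  · rintro ⟨S, hS | hS, hx⟩
    · exact Or.inl ⟨S, hS, hx⟩
    · exact Or.inr ⟨S, hS, hx⟩
  · rintro (⟨S, hS, hx⟩ | ⟨S, hS, hx⟩)
    · exact ⟨S, Or.inl hS, hx⟩
    · exact ⟨S, Or.inr hS, hx⟩

/-- `Approx r s Cl Dl h`: the Boolean function `h` has a pair of approximators relative to the
error clauses `Cl` and the error terms `Dl`. -/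
def Approx (r s : ℕ) (Cl Dl : Finset (Finset V)) (h : (V → Bool) → Bool) : Prop :=
  ∃ cnf dnf : Finset (Finset V), (∀ Q ∈ cnf, Q.card < s) ∧ (∀ S ∈ dnf, S.card < r) ∧
    (∀ x, DNF dnf x → CNF cnf x) ∧
    (∀ x, CNF cnf x → CNF Cl x → h x = true) ∧
    (∀ x, h x = true → DNF dnf x ∨ DNF Dl x)

theorem Approx.mono [DecidableEq V] {r s : ℕ} {Cl Dl Cl' Dl' : Finset (Finset V)}
    {h : (V → Bool) → Bool}
    (H : Approx r s Cl Dl h) : Approx r s (Cl ∪ Cl') (Dl ∪ Dl') h := by
  obtain ⟨cnf, dnf, h1, h2, h3, h4, h5⟩ := H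
  refine ⟨cnf, dnf, h1, h2, h3, ?_, ?_⟩
  · intro x hx hx'
    rw [CNF_union] at hx'
    exact h4 x hx hx'.1
  · intro x hx
    rw [DNF_union]
    rcases h5 x hx with h | h
    · exact Or.inl h
    · exact Or.inr (Or.inl h)

theorem approx_const {r s : ℕ} (hr : 1 ≤ r) (hs : 1 ≤ s) (Cl Dl : Finset (Finset V)) (c : Bool) :
    Approx r s Cl Dl (fun _ => c) := by
  cases c with
  | false =>
    refine ⟨{∅}, ∅, by simp; omega, by simp, ?_, ?_, by simp⟩
    · intro x ⟨S, hS, _⟩; simp at hS
    · intro x hx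
      obtain ⟨i, hi, _⟩ := hx ∅ (by simp)
      simp at hi
  | true =>
    refine ⟨∅, {∅}, by simp, by simp; omega, ?_, by simp, ?_⟩
    · intro x _ Q hQ; simp at hQ
    · intro x _
      exact Or.inl ⟨∅, by simp, by simp⟩

theorem approx_var {r s : ℕ} (hr : 2 ≤ r) (hs : 2 ≤ s) (Cl Dl : Finset (Finset V)) (v : V) :
    Approx r s Cl Dl (fun x => x v) := by
  refine ⟨{{v}}, {{v}}, by simp; omega, by simp; omega, ?_, ?_, ?_⟩
  · rintro x ⟨S, hS, hx⟩ Q hQ
    simp only [Finset.mem_singleton] at hS hQ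
    subst hS; subst hQ
    exact ⟨v, by simp, hx v (by simp)⟩
  · intro x hx _
    obtain ⟨i, hi, hxi⟩ := hx {v} (by simp)
    simp only [Finset.mem_singleton] at hi
    subst hi
    exact hxi
  · intro x hx
    left
    refine ⟨{v}, by simp, ?_⟩
    intro i hi
    simp only [Finset.mem_singleton] at hi
    subst hi
    exact hx

theorem approx_gate [DecidableEq V] {r s : ℕ} (hr : 1 ≤ r) (hs : 1 ≤ s)
    {Cl Dl : Finset (Finset V)} {h1 h2 : (V → Bool) → Bool}
    (H1 : Approx r s Cl Dl h1) (H2 : Approx r s Cl Dl h2) (isOr : Bool) :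
    ∃ C D : Finset (Finset V), (∀ Q ∈ C, Q.card = s) ∧ (∀ S ∈ D, S.card = r) ∧
      C.card ≤ (r - 1) ^ s ∧ D.card ≤ (s - 1) ^ r ∧
      Approx r s (Cl ∪ C) (Dl ∪ D)
        (fun x => if isOr then h1 x || h2 x else h1 x && h2 x) := by
  obtain ⟨c1, d1, a1, b1, e1, f1, g1⟩ := H1
  obtain ⟨c2, d2, a2, b2, e2, f2, g2⟩ := H2
  cases isOr with
  | true =>
    obtain ⟨cnf, C, k1, k2, k3, k4, k5⟩ := switch_dnf (d1 ∪ d2) (r - 1) s (by
      intro Q hQ
      rw [Finset.mem_union] at hQ
      rcases hQ with h | h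
      · have := b1 Q h; omega
      · have := b2 Q h; omega)
    refine ⟨C, ∅, k2, by simp, k3, by simp, ?_⟩
    refine ⟨cnf, d1 ∪ d2, k1, ?_, k4, ?_, ?_⟩
    · intro S hS
      rw [Finset.mem_union] at hS
      rcases hS with h | h
      · exact b1 S h
      · exact b2 S h
    · intro x hx hx'
      rw [CNF_union] at hx'
      have := k5 x hx hx'.2
      rw [DNF_union] at this
      simp only [if_true, Bool.or_eq_true]
      rcases this with h | h
      · exact Or.inl (f1 x (e1 x h) hx'.1)
      · exact Or.inr (f2 x (e2 x h) hx'.1)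
    · intro x hx
      simp only [if_true, Bool.or_eq_true] at hx
      rw [DNF_union, DNF_union]
      rcases hx with h | h
      · rcases g1 x h with h | h
        · exact Or.inl (Or.inl h)
        · exact Or.inr (Or.inl h)
      · rcases g2 x h with h | h
        · exact Or.inl (Or.inr h)
        · exact Or.inr (Or.inl h)
  | false =>
    obtain ⟨dnf, D, k1, k2, k3, k4, k5⟩ := switch_cnf (c1 ∪ c2) (s - 1) r (by
      intro Q hQ
      rw [Finset.mem_union] at hQ
      rcases hQ with h | h
      · have := a1 Q h; omega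
      · have := a2 Q h; omega)
    refine ⟨∅, D, by simp, k2, by simp, k3, ?_⟩
    refine ⟨c1 ∪ c2, dnf, ?_, k1, k4, ?_, ?_⟩
    · intro S hS
      rw [Finset.mem_union] at hS
      rcases hS with h | h
      · exact a1 S h
      · exact a2 S h
    · intro x hx hx'
      rw [CNF_union] at hx hx'
      simp only [Bool.false_eq_true, if_false, Bool.and_eq_true]
      exact ⟨f1 x hx.1 hx'.1, f2 x hx.2 hx'.1⟩
    · intro x hx
      simp only [Bool.false_eq_true, if_false, Bool.and_eq_true] at hx
      rw [DNF_union]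
      rcases g1 x hx.1 with h | h
      · rcases g2 x hx.2 with h' | h'
        · rcases k5 x ((CNF_union _ _ _).2 ⟨e1 x h, e2 x h'⟩) with h'' | h''
          · exact Or.inl h''
          · exact Or.inr (Or.inr h'')
        · exact Or.inr (Or.inl h')
      · exact Or.inr (Or.inl h)

theorem approx_gates [DecidableEq V] {r s : ℕ} (hr : 2 ≤ r) (hs : 2 ≤ s) :
    ∀ {t : ℕ} (p : MonoGates V t), ∃ Cl Dl : Finset (Finset V),
      (∀ Q ∈ Cl, Q.card = s) ∧ (∀ S ∈ Dl, S.card = r) ∧
      Cl.card ≤ t * (r - 1) ^ s ∧ Dl.card ≤ t * (s - 1) ^ r ∧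
      ∀ o : MOp V t, Approx r s Cl Dl (fun x => o.val x (p.val x)) := by
  intro t p
  induction p with
  | nil =>
    refine ⟨∅, ∅, by simp, by simp, by simp, by simp, ?_⟩
    intro o
    cases o with
    | const c => exact approx_const (by omega) (by omega) _ _ c
    | var v => exact approx_var hr hs _ _ v
    | gate j => exact j.elim0
  | @snoc t p isOr a b ih =>
    obtain ⟨Cl, Dl, h1, h2, h3, h4, h5⟩ := ih
    obtain ⟨C, D, k1, k2, k3, k4, k5⟩ := approx_gate (by omega) (by omega) (h5 a) (h5 b) isOr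
    refine ⟨Cl ∪ C, Dl ∪ D, ?_, ?_, ?_, ?_, ?_⟩
    · intro Q hQ
      rw [Finset.mem_union] at hQ
      rcases hQ with h | h
      · exact h1 Q h
      · exact k1 Q h
    · intro Q hQ
      rw [Finset.mem_union] at hQ
      rcases hQ with h | h
      · exact h2 Q h
      · exact k2 Q h
    · calc (Cl ∪ C).card ≤ Cl.card + C.card := Finset.card_union_le _ _
        _ ≤ t * (r - 1) ^ s + (r - 1) ^ s := Nat.add_le_add h3 k3
        _ = (t + 1) * (r - 1) ^ s := by ring
    · calc (Dl ∪ D).card ≤ Dl.card + D.card := Finset.card_union_le _ _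
        _ ≤ t * (s - 1) ^ r + (s - 1) ^ r := Nat.add_le_add h4 k4
        _ = (t + 1) * (s - 1) ^ r := by ring
    · intro o
      cases o with
      | const c => exact approx_const (by omega) (by omega) _ _ c
      | var v => exact approx_var hr hs _ _ v
      | gate j =>
        refine Fin.lastCases ?_ (fun j => ?_) j
        · have : (fun x => (MOp.gate (Fin.last t) : MOp V (t + 1)).val x
              ((MonoGates.snoc p isOr a b).val x)) =
              (fun x => if isOr then a.val x (p.val x) || b.val x (p.val x)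
                else a.val x (p.val x) && b.val x (p.val x)) := by
            funext x
            simp [MOp.val, MonoGates.val]
          rw [this]
          exact k5
        · have : (fun x => (MOp.gate (Fin.castSucc j) : MOp V (t + 1)).val x
              ((MonoGates.snoc p isOr a b).val x)) =
              (fun x => (MOp.gate j : MOp V t).val x (p.val x)) := by
            funext x
            simp [MOp.val, MonoGates.val]
          rw [this]
          exact (h5 (MOp.gate j)).mono

/-- **Criterion for monotone circuits.** -/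
theorem criterion [DecidableEq V] {r s : ℕ} (hr : 2 ≤ r) (hs : 2 ≤ s) (C : MonoCircuit V) :
    ∃ Cl Dl : Finset (Finset V),
      (∀ Q ∈ Cl, Q.card = s) ∧ (∀ S ∈ Dl, S.card = r) ∧
      Cl.card ≤ C.size * (r - 1) ^ s ∧ Dl.card ≤ C.size * (s - 1) ^ r ∧
      ((∀ x, CNF Cl x → C.eval x = true) ∨
        ∃ I : Finset V, I.card < s ∧
          ∀ x, C.eval x = true → DNF Dl x ∨ ∃ i ∈ I, x i = true) := by
  obtain ⟨Cl, Dl, h1, h2, h3, h4, h5⟩ := approx_gates hr hs C.gates
  refine ⟨Cl, Dl, h1, h2, h3, h4, ?_⟩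
  obtain ⟨cnf, dnf, a, b, c, d, e⟩ := h5 C.out
  by_cases hc : ∃ I, I ∈ cnf
  · obtain ⟨I, hI⟩ := hc
    right
    refine ⟨I, a I hI, ?_⟩
    intro x hx
    rcases e x hx with h | h
    · exact Or.inr (c x h I hI)
    · exact Or.inl h
  · left
    push Not at hc
    intro x hx
    exact d x (fun Q hQ => absurd hQ (hc Q)) hx

end Crit

section Subst

variable {V W : Type}

/-- Substituting operands for variables. -/
def MOp.subst {s : ℕ} (σ : V → Bool ⊕ W) : MOp V s → MOp W s
  | .const c => .const c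
  | .var v => match σ v with
    | .inl c => .const c
    | .inr w => .var w
  | .gate j => .gate j

/-- Substituting constants or variables for the variables of a gate list. -/
def MonoGates.subst (σ : V → Bool ⊕ W) : {s : ℕ} → MonoGates V s → MonoGates W s
  | _, .nil => .nil
  | _, .snoc p isOr a b => .snoc (p.subst σ) isOr (a.subst σ) (b.subst σ)

/-- The assignment of `V` induced by an assignment of `W` through a substitution. -/
def substVal (σ : V → Bool ⊕ W) (y : W → Bool) : V → Bool := fun v =>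
  match σ v with
  | .inl c => c
  | .inr w => y w

theorem MOp.subst_val {s : ℕ} (σ : V → Bool ⊕ W) (o : MOp V s) (y : W → Bool)
    (w : Fin s → Bool) : (o.subst σ).val y w = o.val (substVal σ y) w := by
  cases o with
  | const c => rfl
  | var v =>
    simp only [MOp.subst, MOp.val, substVal]
    cases σ v <;> rfl
  | gate j => rfl

theorem MonoGates.subst_val (σ : V → Bool ⊕ W) {s : ℕ} (p : MonoGates V s) (y : W → Bool) :
    (p.subst σ).val y = p.val (substVal σ y) := by
  induction p with
  | nil => rfl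
  | snoc p isOr a b ih =>
    simp only [MonoGates.subst, MonoGates.val, ih, MOp.subst_val]

/-- Substitution in a circuit. -/
def MonoCircuit.subst (σ : V → Bool ⊕ W) (C : MonoCircuit V) : MonoCircuit W where
  size := C.size
  gates := C.gates.subst σ
  out := C.out.subst σ

theorem MonoCircuit.subst_eval (σ : V → Bool ⊕ W) (C : MonoCircuit V) (y : W → Bool) :
    (C.subst σ).eval y = C.eval (substVal σ y) := by
  simp only [MonoCircuit.eval, MonoCircuit.subst, MOp.subst_val, MonoGates.subst_val]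

end Subst

end Pool.Agent.H589R2
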